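import Mathlib

namespace Pool.Agent.Helper890

/-- The chi sequence of Levine and O'Sullivan: `chi 1 = 1` and, for `i ≥ 2`,
`chi i` is the maximum of `(j+1)(i - chi j)` over `1 ≤ j < i`.
(The value at `0` is not used.) -/
def chi (i : ℕ) : ℤ :=
  if h : 2 ≤ i then
    (Finset.Ico 1 i).attach.sup'
      (by rw [Finset.attach_nonempty_iff, Finset.nonempty_Ico]; omega)
      (fun j => ((j.1 : ℤ) + 1) * ((i : ℤ) - chi j.1))
  else 1
termination_by i
decreasing_by exact (Finset.mem_Ico.mp j.2).2

end Pool.Agent.Helper890
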