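import Mathlib
import Pool.Agent.Helper890.ChiDef

namespace Pool.Agent.Helper890

lemma chi_one : chi 1 = 1 := by
  rw [chi]; simp

lemma chi_zero : chi 0 = 1 := by
  rw [chi]; simp

lemma chi_ge' {i j : ℕ} (hi : 2 ≤ i) (hj : 1 ≤ j) (hji : j < i) :
    ((j : ℤ) + 1) * ((i : ℤ) - chi j) ≤ chi i := by
  rw [chi.eq_1 i, dif_pos hi]
  exact Finset.le_sup' (fun j : {x // x ∈ Finset.Ico 1 i} => ((j.1 : ℤ) + 1) * ((i : ℤ) - chi j.1))
    (Finset.mem_attach _ ⟨j, Finset.mem_Ico.mpr ⟨hj, hji⟩⟩)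

lemma chi_exists {i : ℕ} (hi : 2 ≤ i) :
    ∃ p : ℕ, 1 ≤ p ∧ p < i ∧ chi i = ((p : ℤ) + 1) * ((i : ℤ) - chi p) := by
  have hne : (Finset.Ico 1 i).attach.Nonempty := by
    rw [Finset.attach_nonempty_iff, Finset.nonempty_Ico]; omega
  obtain ⟨b, _, hb⟩ := Finset.exists_mem_eq_sup' hne
    (fun j : {x // x ∈ Finset.Ico 1 i} => ((j.1 : ℤ) + 1) * ((i : ℤ) - chi j.1))
  refine ⟨b.1, (Finset.mem_Ico.mp b.2).1, (Finset.mem_Ico.mp b.2).2, ?_⟩
  rw [chi.eq_1 i, dif_pos hi]
  exact hb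

lemma chi_ge_self {i : ℕ} (hi : 1 ≤ i) : (i : ℤ) ≤ chi i := by
  rcases Nat.lt_or_ge i 2 with h | h
  · have : i = 1 := by omega
    subst this; simp [chi_one]
  · have := chi_ge' (i := i) (j := 1) h le_rfl (by omega)
    rw [chi_one] at this
    push_cast at this
    have : (2 : ℤ) ≤ i := by exact_mod_cast h
    linarith

lemma chi_pos {i : ℕ} (hi : 1 ≤ i) : 0 < chi i := by
  have := chi_ge_self hi
  have : (1 : ℤ) ≤ i := by exact_mod_cast hi
  linarith

/-- the defining inequality holds for all indices -/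
lemma chi_ge {i j : ℕ} (hi : 1 ≤ i) (hj : 1 ≤ j) :
    ((j : ℤ) + 1) * ((i : ℤ) - chi j) ≤ chi i := by
  rcases Nat.lt_or_ge j i with h | h
  · exact chi_ge' (by omega) hj h
  · have h1 := chi_ge_self hj
    have h2 := chi_pos hi
    have h3 : (i : ℤ) ≤ j := by exact_mod_cast h
    have h4 : (0 : ℤ) ≤ (j : ℤ) + 1 := by positivity
    nlinarith

lemma chi_two : chi 2 = 2 := by
  obtain ⟨p, h1, h2, h3⟩ := chi_exists (i := 2) le_rfl
  have : p = 1 := by omega
  subst this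
  rw [h3, chi_one]; norm_num

lemma chi_convex {p : ℕ} (hp : 1 ≤ p) :
    chi (p + 1) - chi p ≤ chi (p + 2) - chi (p + 1) := by
  obtain ⟨j, h1, h2, h3⟩ := chi_exists (i := p + 1) (by omega)
  have a := chi_ge (i := p) (j := j) hp h1
  have b := chi_ge (i := p + 2) (j := j) (by omega) h1
  push_cast at *
  nlinarith

/-- D p = chi (p+1) - chi p is nondecreasing -/
lemma D_mono {p q : ℕ} (hp : 1 ≤ p) (hpq : p ≤ q) :
    chi (p + 1) - chi p ≤ chi (q + 1) - chi q := by
  induction q, hpq using Nat.le_induction with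
  | base => exact le_rfl
  | succ n hn ih => exact ih.trans (chi_convex (by omega))

lemma D_ge_one {p : ℕ} (hp : 1 ≤ p) : 1 ≤ chi (p + 1) - chi p := by
  have := D_mono (p := 1) (q := p) le_rfl hp
  rw [show (1 + 1 : ℕ) = 2 from rfl, chi_two, chi_one] at this
  linarith

lemma chi_lt_succ {p : ℕ} (hp : 1 ≤ p) : chi p < chi (p + 1) := by
  have := D_ge_one hp; linarith

lemma chi_mono {p q : ℕ} (hp : 1 ≤ p) (hpq : p ≤ q) : chi p ≤ chi q := by
  induction q, hpq using Nat.le_induction with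
  | base => exact le_rfl
  | succ n hn ih => exact ih.trans (chi_lt_succ (by omega)).le

lemma chi_lt {p q : ℕ} (hp : 1 ≤ p) (hpq : p < q) : chi p < chi q := by
  have h1 := chi_lt_succ hp
  have h2 := chi_mono (p := p + 1) (q := q) (by omega) hpq
  linarith

/-- breakpoints -/
def bp (p : ℕ) : ℤ := ((p : ℤ) + 2) * chi (p + 1) - ((p : ℤ) + 1) * chi p

lemma bp_eq (p : ℕ) : bp p = chi p + ((p : ℤ) + 2) * (chi (p + 1) - chi p) := by
  unfold bp; ring

lemma bp_eq' (p : ℕ) : bp p = chi (p + 1) + ((p : ℤ) + 1) * (chi (p + 1) - chi p) := by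
  unfold bp; ring

lemma bp_lt_succ {p : ℕ} (hp : 1 ≤ p) : bp p < bp (p + 1) := by
  have h1 := chi_convex hp
  have h2 := D_ge_one hp
  rw [bp_eq', bp_eq]
  push_cast
  have h3 : (1 : ℤ) ≤ p := by exact_mod_cast hp
  have h4 : (0 : ℤ) ≤ (p : ℤ) + 1 := by positivity
  have h5 := mul_le_mul_of_nonneg_left h1 h4
  nlinarith

lemma bp_mono {p q : ℕ} (hp : 1 ≤ p) (hpq : p ≤ q) : bp p ≤ bp q := by
  induction q, hpq using Nat.le_induction with
  | base => exact le_rfl
  | succ n hn ih => exact ih.trans (bp_lt_succ (by omega)).le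

lemma line_diff (j : ℕ) (x : ℤ) :
    (((j : ℤ) + 1) + 1) * (x - chi (j + 1)) - ((j : ℤ) + 1) * (x - chi j) = x - bp j := by
  unfold bp; ring

/-- for x ≤ bp p, lines with larger index are lower -/
lemma line_up {p j : ℕ} {x : ℤ} (hp : 1 ≤ p) (hpj : p ≤ j) (hx : x ≤ bp p) :
    ((j : ℤ) + 1) * (x - chi j) ≤ ((p : ℤ) + 1) * (x - chi p) := by
  induction j, hpj using Nat.le_induction with
  | base => exact le_rfl
  | succ n hn ih =>
    have h1 := line_diff n x
    have h2 := bp_mono hp hn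
    push_cast
    linarith

/-- for x ≥ bp (p-1), lines with smaller index are lower -/
lemma line_down {p j : ℕ} {x : ℤ} (hj : 1 ≤ j) (hjp : j ≤ p)
    (hx : ∀ k, 1 ≤ k → k < p → bp k ≤ x) :
    ((j : ℤ) + 1) * (x - chi j) ≤ ((p : ℤ) + 1) * (x - chi p) := by
  induction p, hjp using Nat.le_induction with
  | base => exact le_rfl
  | succ n hn ih =>
    have h1 := line_diff n x
    have h2 := ih (fun k hk hk' => hx k hk (by omega))
    have h3 := hx n (by omega) (by omega)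
    push_cast
    linarith

/-- explicit formula between breakpoints -/
lemma chi_formula {p i : ℕ} (hp : 1 ≤ p) (hi : 2 ≤ i) (h1 : (i : ℤ) ≤ bp p)
    (h2 : ∀ k, 1 ≤ k → k < p → bp k ≤ i) :
    chi i = ((p : ℤ) + 1) * ((i : ℤ) - chi p) := by
  apply le_antisymm
  · obtain ⟨j, hj1, hj2, hj3⟩ := chi_exists hi
    rw [hj3]
    rcases le_total p j with h | h
    · exact line_up hp h h1
    · exact line_down hj1 h h2
  · exact chi_ge (by omega) hp

lemma bp_one : bp 1 = 4 := by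
  unfold bp
  rw [show (1 + 1 : ℕ) = 2 from rfl, chi_two, chi_one]; norm_num

lemma bp_ge {p : ℕ} (hp : 1 ≤ p) : (p : ℤ) + 3 ≤ bp p := by
  induction p, hp using Nat.le_induction with
  | base => rw [bp_one]; norm_num
  | succ n hn ih =>
    have := bp_lt_succ hn
    push_cast; linarith

/-- the parent index of `i` -/
def par (i : ℕ) : ℕ := (chi i - chi (i - 1) - 1).toNat

/-- main structural lemma -/
lemma par_spec {i : ℕ} (hi : 3 ≤ i) :
    1 ≤ par i ∧ par i < i ∧ chi i = ((par i : ℤ) + 1) * ((i : ℤ) - chi (par i)) ∧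
    chi (i - 1) = ((par i : ℤ) + 1) * ((i : ℤ) - 1 - chi (par i)) ∧
    (i : ℤ) ≤ bp (par i) ∧ (∀ k, 1 ≤ k → k < par i → bp k < i) := by
  -- find least p with i ≤ bp p
  have hex : ∃ p, 1 ≤ p ∧ (i : ℤ) ≤ bp p := ⟨i, by omega, by have := bp_ge (p := i) (by omega); linarith⟩
  classical
  obtain ⟨hp1, hp2⟩ := Nat.find_spec hex
  set p := Nat.find hex with hpdef
  have hmin : ∀ k, 1 ≤ k → k < p → bp k < i := by
    intro k hk hkp
    by_contra hcon
    exact Nat.find_min hex hkp ⟨hk, not_lt.mp hcon⟩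
  have e1 : chi i = ((p : ℤ) + 1) * ((i : ℤ) - chi p) :=
    chi_formula hp1 (by omega) hp2 (fun k hk hk' => (hmin k hk hk').le)
  have e2 : chi (i - 1) = ((p : ℤ) + 1) * (((i - 1 : ℕ) : ℤ) - chi p) := by
    apply chi_formula hp1 (by omega)
    · have : ((i - 1 : ℕ) : ℤ) = (i : ℤ) - 1 := by omega
      rw [this]; linarith
    · intro k hk hk'
      have := hmin k hk hk'
      omega
  have e3 : ((i - 1 : ℕ) : ℤ) = (i : ℤ) - 1 := by omega
  rw [e3] at e2
  have hpar : par i = p := by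
    unfold par
    rw [e1, e2]
    have : ((p : ℤ) + 1) * ((i : ℤ) - chi p) - ((p : ℤ) + 1) * ((i : ℤ) - 1 - chi p) - 1 = (p : ℤ) := by
      ring
    rw [this]; simp
  rw [hpar]
  refine ⟨hp1, ?_, e1, e2, hp2, hmin⟩
  -- p < i
  rcases Nat.lt_or_ge p 2 with h | h
  · omega
  · have h1 := hmin (p - 1) (by omega) (by omega)
    have h2 := bp_ge (p := p - 1) (by omega)
    omega

end Pool.Agent.Helper890
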