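import Mathlib
import Pool.Agent.Helper890.ChiBasic

namespace Pool.Agent.Helper890

/-- the values chi 1, ..., chi 320 packed in base 2^16 -/
def TAB : ℕ := 1129140060856042007552714287708936836217164886015773613343303324268901395080825714429295467444588709799163243140165194945270398183883357210174892055507337269672748575200073332813356071803190745548816537470553045975355681501815390069025493718255984545976038700149960695494202604615462077498441176227214715115431270744592636358133195872294311670154463886743382851664913535323496431278704958992788794578161315993810555322693360589487527071035850628824177369357643247770879924028031320375334339556764682774818334997296257576218030310069572009656411852273707758235787986357342515322537241420288235078252871724701466332882784805802000846651246612614569141284615504798707190237772608375188560529539190866805089685646633080680248205358676218364415732328877147218682856155702242263129901534456909481427267377779154344444183573413134233293603401028679116756801994391452329486135949046487284776584892638555949195869047301874799191818424886779502305465963594247168974450628756381110300954608868221889774051996221040600548611773839437802387796441609355363844409910412352506892772455282304071147962296145202059446805343498866172626829631837316862923423679552437038409721373508826425858204952010906412558367397055490456790079463783963470593086832906934342211874144805817783386938542410048306420358978429967368193070305323475175357088499225319891656918039372999860071658191597876137641039619340888508609430351226828489314066225968407520100248381334434426895270617602909126126457567545545217749832131397881988245309718435978672319213820630673317220757878217965568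

/-- table lookup -/
def T (i : ℕ) : ℕ := (TAB >>> (16 * i)) % 65536

/-- local verification of the recursion -/
def chk (i : ℕ) : Bool :=
  let p := T i - T (i - 1) - 1
  Nat.ble 1 p && Nat.ble (p + 2) i && Nat.ble (T p) i && Nat.beq (T i) ((p + 1) * (i - T p)) &&
  Nat.ble (i + (p + 1) * T p) ((p + 2) * T (p + 1)) &&
  (Nat.beq p 1 || Nat.ble ((p + 1) * T p) (i + p * T (p - 1)))

def chkAll : ℕ → Bool
  | 0 => true
  | n + 1 => chk (n + 3) && chkAll n

lemma chkAll_spec : ∀ n, chkAll n = true → ∀ i, 3 ≤ i → i < n + 3 → chk i = true := by
  intro n
  induction n with
  | zero => intro _ i h1 h2; omega
  | succ n ih =>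
    intro h i h1 h2
    rw [chkAll, Bool.and_eq_true] at h
    rcases Nat.lt_or_ge i (n + 3) with h3 | h3
    · exact ih h.2 i h1 h3
    · have : i = n + 3 := by omega
      rw [this]; exact h.1

lemma chkAll_318 : chkAll 318 = true := by decide +kernel

lemma T_one : T 1 = 1 := by decide +kernel
lemma T_two : T 2 = 2 := by decide +kernel

lemma chi_tab : ∀ i, 1 ≤ i → i ≤ 320 → chi i = (T i : ℤ) := by
  intro i
  induction i using Nat.strong_induction_on with
  | _ i ih =>
    intro h1 h2
    rcases Nat.lt_or_ge i 3 with h3 | h3
    · rcases Nat.lt_or_ge i 2 with h4 | h4
      · have : i = 1 := by omega
        subst this; rw [chi_one, T_one]; rfl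
      · have : i = 2 := by omega
        subst this; rw [chi_two, T_two]; rfl
    · have hc := chkAll_spec 318 chkAll_318 i h3 (by omega)
      unfold chk at hc
      simp only [Bool.and_eq_true, Bool.or_eq_true, Nat.ble_eq, Nat.beq_eq] at hc
      generalize hp : T i - T (i - 1) - 1 = p at hc
      obtain ⟨⟨⟨⟨⟨c1, c2⟩, c3⟩, c4⟩, c5⟩, c6⟩ := hc
      have ep := ih p (by omega) (by omega) (by omega)
      have ep1 := ih (p + 1) (by omega) (by omega) (by omega)
      have key := chi_formula (p := p) (i := i) c1 (by omega) (by
          unfold bp; rw [ep, ep1]
          have : (((i + (p + 1) * T p : ℕ)) : ℤ) ≤ (((p + 2) * T (p + 1) : ℕ) : ℤ) := by exact_mod_cast c5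
          push_cast at this; linarith) (by
          intro k hk hkp
          rcases c6 with c6 | c6
          · omega
          · have hk2 : bp k ≤ bp (p - 1) := bp_mono hk (by omega)
            have em1 := ih (p - 1) (by omega) (by omega) (by omega)
            have e : bp (p - 1) = ((p : ℤ) + 1) * (T p : ℤ) - (p : ℤ) * (T (p - 1) : ℤ) := by
              unfold bp
              rw [show p - 1 + 1 = p by omega, ep, em1]
              have : ((p - 1 : ℕ) : ℤ) = (p : ℤ) - 1 := by omega
              rw [this]; ring
            have : ((((p + 1) * T p : ℕ)) : ℤ) ≤ ((i + p * T (p - 1) : ℕ) : ℤ) := by exact_mod_cast c6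
            push_cast at this
            rw [e] at hk2
            linarith)
      rw [key, ep, c4]
      push_cast [Nat.cast_sub c3]
      ring

end Pool.Agent.Helper890
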