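import Mathlib
import Pool.Agent.Helper890.ChiTable

namespace Pool.Agent.Helper890

lemma par_le_iff {i p : ℕ} (hi : 3 ≤ i) (hp : 1 ≤ p) : par i ≤ p ↔ (i : ℤ) ≤ bp p := by
  obtain ⟨h1, _, _, _, h5, h6⟩ := par_spec hi
  constructor
  · intro h; exact h5.trans (bp_mono h1 h)
  · intro h
    by_contra hcon
    have := h6 p hp (by omega)
    linarith

lemma bp_29 : bp 29 = 306 := by
  unfold bp
  rw [chi_tab 29 (by norm_num) (by norm_num), chi_tab 30 (by norm_num) (by norm_num)]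
  have : T 29 = 120 := by decide +kernel
  have h2 : T 30 = 126 := by decide +kernel
  rw [this, h2]; norm_num

lemma par_ge_30 {i : ℕ} (hi : 307 ≤ i) : 30 ≤ par i := by
  by_contra hcon
  have h := (par_le_iff (i := i) (p := 29) (by omega) (by norm_num)).mp (by omega)
  rw [bp_29] at h
  omega

lemma par_bound {i : ℕ} (hi : 3 ≤ i) : par i + 2 ≤ i ∨ par i = 1 := by
  obtain ⟨h1, _, _, _, h5, h6⟩ := par_spec hi
  rcases Nat.lt_or_ge (par i) 2 with h | h
  · right; omega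
  · left
    have a := h6 (par i - 1) (by omega) (by omega)
    have b := bp_ge (p := par i - 1) (by omega)
    omega

/-- finite check of the three ratio bounds -/
def chkR (p : ℕ) : Bool :=
  Nat.ble (10 * T p) (7 * p * (T p - T (p - 1))) &&
  Nat.ble (15 * (p + 2) * (T (p + 1) - T p)) (28 * T p) &&
  Nat.ble (3 * T p) (2 * p * (T (p + 1) - T p)) &&
  Nat.ble (T (p - 1)) (T p) && Nat.ble (T p) (T (p + 1))

def chkRAll : ℕ → Bool
  | 0 => true
  | n + 1 => chkR (n + 30) && chkRAll n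

lemma chkRAll_spec : ∀ n, chkRAll n = true → ∀ i, 30 ≤ i → i < n + 30 → chkR i = true := by
  intro n
  induction n with
  | zero => intro _ i h1 h2; omega
  | succ n ih =>
    intro h i h1 h2
    rw [chkRAll, Bool.and_eq_true] at h
    rcases Nat.lt_or_ge i (n + 30) with h3 | h3
    · exact ih h.2 i h1 h3
    · have : i = n + 30 := by omega
      rw [this]; exact h.1

lemma chkRAll_280 : chkRAll 280 = true := by decide +kernel

lemma ratio_small {p : ℕ} (h1 : 30 ≤ p) (h2 : p ≤ 309) :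
    10 * chi p ≤ 7 * (p : ℤ) * (chi p - chi (p - 1)) ∧
    15 * ((p : ℤ) + 2) * (chi (p + 1) - chi p) ≤ 28 * chi p ∧
    3 * chi p ≤ 2 * (p : ℤ) * (chi (p + 1) - chi p) := by
  have hc := chkRAll_spec 280 chkRAll_280 p h1 (by omega)
  unfold chkR at hc
  simp only [Bool.and_eq_true, Nat.ble_eq] at hc
  obtain ⟨⟨⟨⟨c1, c2⟩, c3⟩, c4⟩, c5⟩ := hc
  rw [chi_tab p (by omega) (by omega), chi_tab (p - 1) (by omega) (by omega),
    chi_tab (p + 1) (by omega) (by omega)]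
  refine ⟨?_, ?_, ?_⟩
  · have : ((10 * T p : ℕ) : ℤ) ≤ ((7 * p * (T p - T (p - 1)) : ℕ) : ℤ) := by exact_mod_cast c1
    push_cast [Nat.cast_sub c4] at this
    exact this
  · have : ((15 * (p + 2) * (T (p + 1) - T p) : ℕ) : ℤ) ≤ ((28 * T p : ℕ) : ℤ) := by exact_mod_cast c2
    push_cast [Nat.cast_sub c5] at this
    exact this
  · have : ((3 * T p : ℕ) : ℤ) ≤ ((2 * p * (T (p + 1) - T p) : ℕ) : ℤ) := by exact_mod_cast c3
    push_cast [Nat.cast_sub c5] at this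
    exact this

lemma chi_30 : chi 30 = 126 := by
  rw [chi_tab 30 (by norm_num) (by norm_num)]
  have h2 : T 30 = 126 := by decide +kernel
  rw [h2]; norm_num

lemma ratio_all : ∀ p : ℕ, 30 ≤ p →
    10 * chi p ≤ 7 * (p : ℤ) * (chi p - chi (p - 1)) ∧
    15 * ((p : ℤ) + 2) * (chi (p + 1) - chi p) ≤ 28 * chi p ∧
    3 * chi p ≤ 2 * (p : ℤ) * (chi (p + 1) - chi p) := by
  intro p
  induction p using Nat.strong_induction_on with
  | _ p ih =>
    intro hp
    rcases Nat.lt_or_ge p 310 with h | h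
    · exact ratio_small hp (by omega)
    · -- large case
      -- parent of p
      obtain ⟨a1, a2, a3, a4, a5, a6⟩ := par_spec (i := p) (by omega)
      have a7 := par_ge_30 (i := p) (by omega)
      obtain ⟨b1, b2, b3, b4, b5, b6⟩ := par_spec (i := p + 1) (by omega)
      have b7 := par_ge_30 (i := p + 1) (by omega)
      set q := par p with hq
      set q' := par (p + 1) with hq'
      have hqb : q' + 2 ≤ p + 1 := by
        rcases par_bound (i := p + 1) (by omega) with h' | h'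
        · exact h'
        · omega
      obtain ⟨X1, X2, X3⟩ := ih q a2 a7
      obtain ⟨Y1, Y2, Y3⟩ := ih q' (by omega) b7
      rw [show p + 1 - 1 = p by omega] at b4
      push_cast at b3 b4 b5
      have hq0 : (30 : ℤ) ≤ q := by exact_mod_cast a7
      have hq0' : (30 : ℤ) ≤ q' := by exact_mod_cast b7
      have hchi := chi_mono (p := 30) (q := q) (by norm_num) a7
      have hchi' := chi_mono (p := 30) (q := q') (by norm_num) b7
      rw [chi_30] at hchi hchi'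
      have hp0 : (310 : ℤ) ≤ p := by exact_mod_cast h
      rw [bp_eq] at a5 b5
      have b8 : chi q' + (q' : ℤ) * (chi q' - chi (q' - 1)) ≤ p := by
        have h6 := b6 (q' - 1) (by omega) (by omega)
        rw [bp_eq', show q' - 1 + 1 = q' by omega] at h6
        have e : ((q' - 1 : ℕ) : ℤ) = (q' : ℤ) - 1 := by omega
        rw [e] at h6
        push_cast at h6
        linarith
      refine ⟨?_, ?_, ?_⟩
      · -- 10 chi p ≤ 7 p D_{p-1}
        have hD : chi p - chi (p - 1) = (q : ℤ) + 1 := by rw [a3, a4]; ring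
        rw [hD, a3]
        have k1 : 10 * ((p : ℤ) - chi q) ≤ 7 * p := by linarith
        have k2 : (0 : ℤ) ≤ (q : ℤ) + 1 := by linarith
        nlinarith [mul_le_mul_of_nonneg_left k1 k2]
      · have hD : chi (p + 1) - chi p = (q' : ℤ) + 1 := by rw [b3, b4]; ring
        rw [hD, b4]
        have k1 : 15 * ((p : ℤ) + 2) ≤ 28 * ((p : ℤ) + 1 - 1 - chi q') := by linarith
        have k2 : (0 : ℤ) ≤ (q' : ℤ) + 1 := by linarith
        nlinarith [mul_le_mul_of_nonneg_left k1 k2]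
      · have hD : chi (p + 1) - chi p = (q' : ℤ) + 1 := by rw [b3, b4]; ring
        rw [hD, b4]
        have k1 : 3 * ((p : ℤ) + 1 - 1 - chi q') ≤ 2 * p := by linarith
        have k2 : (0 : ℤ) ≤ (q' : ℤ) + 1 := by linarith
        nlinarith [mul_le_mul_of_nonneg_left k1 k2]

lemma Yb {p : ℕ} (hp : 30 ≤ p) : 10 * chi p ≤ 7 * (p : ℤ) * (chi p - chi (p - 1)) :=
  (ratio_all p hp).1
lemma Xb {p : ℕ} (hp : 30 ≤ p) : 15 * ((p : ℤ) + 2) * (chi (p + 1) - chi p) ≤ 28 * chi p :=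
  (ratio_all p hp).2.1
lemma Rb {p : ℕ} (hp : 30 ≤ p) : 3 * chi p ≤ 2 * (p : ℤ) * (chi (p + 1) - chi p) :=
  (ratio_all p hp).2.2

lemma growth_step {p : ℕ} (hp : 30 ≤ p) :
    ((p : ℝ) + 2) ^ 3 * (chi p : ℝ) ^ 2 ≤ ((p : ℝ) + 1) ^ 3 * (chi (p + 1) : ℝ) ^ 2 := by
  have hR : 3 * (chi p : ℝ) ≤ 2 * (p : ℝ) * ((chi (p + 1) : ℝ) - chi p) := by
    exact_mod_cast Rb hp
  have hp0 : (30 : ℝ) ≤ p := by exact_mod_cast hp
  have hpos : (0 : ℝ) < chi p := by exact_mod_cast chi_pos (i := p) (by omega)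
  set c := (chi p : ℝ)
  set d := (chi (p + 1) : ℝ)
  set x := (p : ℝ)
  have h1 : c * (2 * x + 3) ≤ 2 * x * d := by nlinarith
  have h2 : 0 < c * (2 * x + 3) := by positivity
  have h3 : (c * (2 * x + 3)) ^ 2 ≤ (2 * x * d) ^ 2 := pow_le_pow_left₀ h2.le h1 2
  have h4 : 4 * x ^ 2 * (x + 2) ^ 3 ≤ (x + 1) ^ 3 * (2 * x + 3) ^ 2 := by
    have : 0 ≤ x := by linarith
    nlinarith [pow_nonneg this 2, pow_nonneg this 3]
  have h5 : 4 * x ^ 2 * ((x + 2) ^ 3 * c ^ 2) ≤ 4 * x ^ 2 * ((x + 1) ^ 3 * d ^ 2) := by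
    calc 4 * x ^ 2 * ((x + 2) ^ 3 * c ^ 2) = (4 * x ^ 2 * (x + 2) ^ 3) * c ^ 2 := by ring
      _ ≤ ((x + 1) ^ 3 * (2 * x + 3) ^ 2) * c ^ 2 := by
          apply mul_le_mul_of_nonneg_right h4 (by positivity)
      _ = (x + 1) ^ 3 * (c * (2 * x + 3)) ^ 2 := by ring
      _ ≤ (x + 1) ^ 3 * (2 * x * d) ^ 2 := by
          apply mul_le_mul_of_nonneg_left h3 (by positivity)
      _ = 4 * x ^ 2 * ((x + 1) ^ 3 * d ^ 2) := by ring
  have h6 : (0 : ℝ) < 4 * x ^ 2 := by positivity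
  exact le_of_mul_le_mul_left h5 h6

/-- growth: chi q / chi p ≥ ((q+1)/(p+1))^{3/2} -/
lemma growth {p q : ℕ} (hp : 30 ≤ p) (hpq : p ≤ q) :
    ((q : ℝ) + 1) ^ 3 * (chi p : ℝ) ^ 2 ≤ ((p : ℝ) + 1) ^ 3 * (chi q : ℝ) ^ 2 := by
  induction q, hpq using Nat.le_induction with
  | base => exact le_rfl
  | succ n hn ih =>
    have h1 := growth_step (p := n) (by omega)
    have hpos : (0 : ℝ) < (chi n : ℝ) ^ 2 := by
      have : (0 : ℝ) < chi n := by exact_mod_cast chi_pos (i := n) (by omega)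
      positivity
    have hn1 : (0 : ℝ) < ((n : ℝ) + 1) ^ 3 := by positivity
    push_cast
    have h2 : ((n : ℝ) + 1 + 1) ^ 3 = ((n : ℝ) + 2) ^ 3 := by ring
    rw [h2]
    -- multiply
    have h3 : (((n : ℝ) + 2) ^ 3 * (chi p : ℝ) ^ 2) * (((n : ℝ) + 1) ^ 3 * (chi n : ℝ) ^ 2) ≤
        (((p : ℝ) + 1) ^ 3 * (chi (n + 1) : ℝ) ^ 2) * (((n : ℝ) + 1) ^ 3 * (chi n : ℝ) ^ 2) := by
      calc (((n : ℝ) + 2) ^ 3 * (chi p : ℝ) ^ 2) * (((n : ℝ) + 1) ^ 3 * (chi n : ℝ) ^ 2)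
          = (((n : ℝ) + 2) ^ 3 * (chi n : ℝ) ^ 2) * (((n : ℝ) + 1) ^ 3 * (chi p : ℝ) ^ 2) := by ring
        _ ≤ (((n : ℝ) + 1) ^ 3 * (chi (n + 1) : ℝ) ^ 2) * (((p : ℝ) + 1) ^ 3 * (chi n : ℝ) ^ 2) := by
            apply mul_le_mul h1 ih (by positivity) (by positivity)
        _ = (((p : ℝ) + 1) ^ 3 * (chi (n + 1) : ℝ) ^ 2) * (((n : ℝ) + 1) ^ 3 * (chi n : ℝ) ^ 2) := by ring
    exact le_of_mul_le_mul_right h3 (by positivity)

end Pool.Agent.Helper890
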