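import Mathlib
import Pool.Agent.Helper890.ChiGrowth

namespace Pool.Agent.Helper890

/-- thresholds in sixteenths -/
def c16 (j : ℕ) : ℕ := if j = 0 then 16 else if j = 1 then 31 else if j = 2 then 46 else 10 * j + 28

/-- the assignment thresholds -/
noncomputable def W (j i : ℕ) : ℝ :=
  if j = 0 then (i : ℝ)
  else if j ≤ 29 then min ((c16 j : ℝ) / 16 * i) (((j : ℝ) + 1) * ((i : ℝ) - chi j))
  else if j ≤ par i then ((j : ℝ) + 1) * ((i : ℝ) - chi (par i)) else 0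

/-- lower bound for the term -/
noncomputable def lo (j : ℕ) (α : ℝ) (i : ℕ) : ℝ :=
  max (max α (((j : ℝ) + 1) * ((i : ℝ) - α))) (max (i : ℝ) (W (j - 1) i))

/-- mass charged from `i` to `j` when `a j = α` -/
noncomputable def F (j : ℕ) (α : ℝ) (i : ℕ) : ℝ :=
  if lo j α i < W j i then 1 / lo j α i - 1 / W j i else 0

/-- the key inequality -/
def Key (j : ℕ) : Prop :=
  ∀ (α : ℤ) (n : ℕ), chi j < α →
    ∑ i ∈ Finset.Icc 1 n, F j (α : ℝ) i ≤ 1 / (chi j : ℝ) - 1 / (α : ℝ)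

lemma sum_le_of_support {s t : Finset ℕ} {f g : ℕ → ℝ}
    (h : ∀ i ∈ s, f i ≠ 0 → i ∈ t ∧ f i ≤ g i) (hg : ∀ i ∈ t, 0 ≤ g i) :
    ∑ i ∈ s, f i ≤ ∑ i ∈ t, g i := by
  classical
  calc ∑ i ∈ s, f i = ∑ i ∈ s.filter (fun i => f i ≠ 0), f i := by
        rw [Finset.sum_filter_ne_zero]
    _ ≤ ∑ i ∈ s.filter (fun i => f i ≠ 0), g i := by
        apply Finset.sum_le_sum
        intro i hi
        rw [Finset.mem_filter] at hi
        exact (h i hi.1 hi.2).2
    _ ≤ ∑ i ∈ t, g i := by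
        apply Finset.sum_le_sum_of_subset_of_nonneg
        · intro i hi
          rw [Finset.mem_filter] at hi
          exact (h i hi.1 hi.2).1
        · intro i hi _
          exact hg i hi

lemma F_pos_imp {j : ℕ} {α : ℝ} {i : ℕ} (h : F j α i ≠ 0) : lo j α i < W j i := by
  unfold F at h
  by_contra hcon
  rw [if_neg hcon] at h
  exact h rfl

lemma lo_ge_alpha (j : ℕ) (α : ℝ) (i : ℕ) : α ≤ lo j α i :=
  (le_max_left _ _).trans (le_max_left _ _)

lemma lo_ge_line (j : ℕ) (α : ℝ) (i : ℕ) : ((j : ℝ) + 1) * ((i : ℝ) - α) ≤ lo j α i :=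
  (le_max_right _ _).trans (le_max_left _ _)

lemma lo_ge_i (j : ℕ) (α : ℝ) (i : ℕ) : (i : ℝ) ≤ lo j α i :=
  (le_max_left _ _).trans (le_max_right _ _)

lemma lo_ge_W (j : ℕ) (α : ℝ) (i : ℕ) : W (j - 1) i ≤ lo j α i :=
  (le_max_right _ _).trans (le_max_right _ _)

/-- eligibility -/
lemma W_le_line {j i : ℕ} (hj : 1 ≤ j) (hpos : 0 < W j i) :
    W j i ≤ ((j : ℝ) + 1) * ((i : ℝ) - chi j) := by
  unfold W at *
  rw [if_neg (by omega)] at *
  by_cases h : j ≤ 29
  · rw [if_pos h] at *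
    exact min_le_right _ _
  · rw [if_neg h] at *
    by_cases h2 : j ≤ par i
    · rw [if_pos h2] at *
      have := chi_mono hj h2
      have h3 : (chi j : ℝ) ≤ chi (par i) := by exact_mod_cast this
      have h4 : (0 : ℝ) ≤ (j : ℝ) + 1 := by positivity
      nlinarith [mul_le_mul_of_nonneg_left h3 h4]
    · rw [if_neg h2] at *
      exact absurd hpos (lt_irrefl 0)

end Pool.Agent.Helper890
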