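import Mathlib
import Pool.Agent.Helper890.ChiRule

namespace Pool.Agent.Helper890

open Finset

/-- distance from `i` to the value of its parent -/
noncomputable def tt (i : ℕ) : ℝ := (i : ℝ) - chi (par i)

lemma par_small {i : ℕ} (hi : i < 3) : par i = 0 := by
  unfold par
  have : i = 0 ∨ i = 1 ∨ i = 2 := by omega
  rcases this with h | h | h <;> subst h <;> simp [chi_zero, chi_one, chi_two]

lemma chi_posR {i : ℕ} (hi : 1 ≤ i) : (0 : ℝ) < chi i := by exact_mod_cast chi_pos hi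

lemma tt_facts {i : ℕ} (hi : 3 ≤ i) :
    (chi i : ℝ) = ((par i : ℝ) + 1) * tt i ∧
    (chi (i - 1) : ℝ) = ((par i : ℝ) + 1) * (tt i - 1) ∧ 1 < tt i := by
  obtain ⟨h1, h2, h3, h4, _, _⟩ := par_spec hi
  have e1 : (chi i : ℝ) = ((par i : ℝ) + 1) * tt i := by
    unfold tt; exact_mod_cast h3
  have e2 : (chi (i - 1) : ℝ) = ((par i : ℝ) + 1) * (tt i - 1) := by
    unfold tt
    have : (chi (i - 1) : ℝ) = ((par i : ℝ) + 1) * ((i : ℝ) - 1 - chi (par i)) := by exact_mod_cast h4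
    rw [this]; ring
  refine ⟨e1, e2, ?_⟩
  have h5 := chi_posR (i := i - 1) (by omega)
  rw [e2] at h5
  have h6 : (0 : ℝ) < (par i : ℝ) + 1 := by positivity
  have := (mul_pos_iff_of_pos_left h6).mp h5
  linarith

lemma inv_tt_le {i : ℕ} (hi : 3 ≤ i) : 1 / tt i ≤ Real.log (chi i) - Real.log (chi (i - 1)) := by
  obtain ⟨e1, e2, h1⟩ := tt_facts hi
  have h2 := chi_posR (i := i) (by omega)
  have h3 := chi_posR (i := i - 1) (by omega)
  rw [← Real.log_div h2.ne' h3.ne']
  have h4 := Real.one_sub_inv_le_log_of_pos (div_pos h2 h3)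
  refine le_trans (le_of_eq ?_) h4
  rw [inv_div, e1, e2]
  have h6 : (0 : ℝ) < (par i : ℝ) + 1 := by positivity
  have : tt i ≠ 0 := by linarith
  field_simp
  ring

lemma sum_inv_tt {s e : ℕ} (hs : 2 ≤ s) (hse : s ≤ e) :
    ∑ i ∈ Ioc s e, 1 / tt i ≤ Real.log (chi e) - Real.log (chi s) := by
  induction e, hse using Nat.le_induction with
  | base => simp
  | succ n hn ih =>
    rw [Finset.sum_Ioc_succ_top (by omega)]
    have := inv_tt_le (i := n + 1) (by omega)
    rw [show n + 1 - 1 = n by omega] at this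
    linarith

/-- natural breakpoints -/
def bN (p : ℕ) : ℕ := (bp p).toNat

lemma bN_cast {p : ℕ} (hp : 1 ≤ p) : ((bN p : ℕ) : ℤ) = bp p := by
  unfold bN
  have := bp_ge hp
  apply Int.toNat_of_nonneg
  have : (0 : ℤ) ≤ p := by positivity
  linarith

lemma par_le_iff_bN {i p : ℕ} (hi : 3 ≤ i) (hp : 1 ≤ p) : par i ≤ p ↔ i ≤ bN p := by
  rw [par_le_iff hi hp, ← bN_cast hp]
  exact_mod_cast Iff.rfl

lemma bN_ge {p : ℕ} (hp : 1 ≤ p) : p + 3 ≤ bN p := by
  have := bp_ge hp
  rw [← bN_cast hp] at this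
  exact_mod_cast this

lemma bN_mono {p q : ℕ} (hp : 1 ≤ p) (hpq : p ≤ q) : bN p ≤ bN q := by
  have := bp_mono hp hpq
  rw [← bN_cast hp, ← bN_cast (by omega)] at this
  exact_mod_cast this

lemma chi_bN {p : ℕ} (hp : 1 ≤ p) :
    chi (bN p) = ((p : ℤ) + 1) * (((p : ℤ) + 2) * (chi (p + 1) - chi p)) := by
  have h := chi_formula (p := p) (i := bN p) hp (by have := bN_ge hp; omega)
    (by rw [bN_cast hp]) (by
      intro k hk hkp
      rw [bN_cast hp]
      exact bp_mono hk hkp.le)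
  rw [h, bN_cast hp, bp_eq]
  ring

lemma tt_le {i : ℕ} (hi : 3 ≤ i) (h30 : 30 ≤ par i) : 15 * tt i ≤ 28 * chi (par i) := by
  obtain ⟨h1, h2, h3, h4, h5, h6⟩ := par_spec hi
  rw [bp_eq] at h5
  have hX := Xb h30
  unfold tt
  have : 15 * ((i : ℤ) - chi (par i)) ≤ 28 * chi (par i) := by linarith
  exact_mod_cast this

lemma W_prev {j i : ℕ} (hj : 30 ≤ j) (hi : 3 ≤ i) (hji : j ≤ par i) :
    (j : ℝ) * tt i ≤ W (j - 1) i := by
  unfold W
  rw [if_neg (by omega)]
  by_cases h : j - 1 ≤ 29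
  · rw [if_pos h]
    have hj30 : j = 30 := by omega
    subst hj30
    have h1 := tt_le hi hji
    have h2 : (i : ℝ) = chi (par i) + tt i := by unfold tt; ring
    apply le_min
    · have : c16 (30 - 1) = 318 := by decide
      rw [this]
      push_cast
      have h0 : 0 < tt i := by linarith [(tt_facts hi).2.2]
      rw [h2]
      nlinarith
    · have h3 := chi_mono (p := 29) (q := par i) (by norm_num) (by omega)
      have h4 : (chi 29 : ℝ) ≤ chi (par i) := by exact_mod_cast h3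
      unfold tt
      norm_num
      linarith
  · rw [if_neg h, if_pos (by omega)]
    have : ((j - 1 : ℕ) : ℝ) = (j : ℝ) - 1 := by
      rw [Nat.cast_sub (by omega)]; simp
    rw [this]
    unfold tt
    ring_nf
    rfl

lemma F_large {j i : ℕ} {α : ℝ} (hj : 30 ≤ j) (hα : 0 < α) (h : F j α i ≠ 0) :
    3 ≤ i ∧ j ≤ par i ∧ (chi (par i) : ℝ) < α ∧ α < ((j : ℝ) + 1) * tt i ∧
    F j α i ≤ 1 / ((j : ℝ) * ((j : ℝ) + 1)) * (1 / tt i) ∧
    (α < i → F j α i ≤ 1 / (((j : ℝ) + 1)) * (1 / ((i : ℝ) - α) - 1 / tt i)) := by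
  have hlt := F_pos_imp h
  have hW : W j i = if j ≤ par i then ((j : ℝ) + 1) * ((i : ℝ) - chi (par i)) else 0 := by
    unfold W
    rw [if_neg (by omega), if_neg (by omega)]
  have ha := lo_ge_alpha j α i
  have hpi : j ≤ par i := by
    by_contra hcon
    rw [hW, if_neg hcon] at hlt
    linarith
  rw [if_pos hpi] at hW
  have hW' : W j i = ((j : ℝ) + 1) * tt i := by rw [hW]; rfl
  have hi : 3 ≤ i := by
    by_contra hcon
    have := par_small (i := i) (by omega)
    omega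
  have htt := (tt_facts hi).2.2
  have hj1 : (0 : ℝ) < (j : ℝ) + 1 := by positivity
  have hj0 : (30 : ℝ) ≤ j := by exact_mod_cast hj
  have hline := lo_ge_line j α i
  have hWp := (W_prev hj hi hpi).trans (lo_ge_W j α i)
  have hFe : F j α i = 1 / lo j α i - 1 / W j i := by
    unfold F; rw [if_pos hlt]
  refine ⟨hi, hpi, ?_, ?_, ?_, ?_⟩
  · have : ((j : ℝ) + 1) * ((i : ℝ) - α) < ((j : ℝ) + 1) * ((i : ℝ) - chi (par i)) := by
      rw [← hW]; linarith
    have := lt_of_mul_lt_mul_left this hj1.le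
    linarith
  · rw [← hW']; linarith
  · rw [hFe, hW']
    have h1 : 0 < (j : ℝ) * tt i := by positivity
    have h2 : 1 / lo j α i ≤ 1 / ((j : ℝ) * tt i) := one_div_le_one_div_of_le h1 hWp
    have h3 : 1 / ((j : ℝ) * tt i) - 1 / (((j : ℝ) + 1) * tt i) =
        1 / ((j : ℝ) * ((j : ℝ) + 1)) * (1 / tt i) := by
      have : tt i ≠ 0 := by linarith
      have : (j : ℝ) ≠ 0 := by linarith
      field_simp
      ring
    linarith
  · intro hai
    rw [hFe, hW']
    have h1 : 0 < ((j : ℝ) + 1) * ((i : ℝ) - α) := by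
      apply mul_pos hj1; linarith
    have h2 : 1 / lo j α i ≤ 1 / (((j : ℝ) + 1) * ((i : ℝ) - α)) := one_div_le_one_div_of_le h1 hline
    have h3 : 1 / (((j : ℝ) + 1) * ((i : ℝ) - α)) - 1 / (((j : ℝ) + 1) * tt i) =
        1 / (((j : ℝ) + 1)) * (1 / ((i : ℝ) - α) - 1 / tt i) := by
      have : tt i ≠ 0 := by linarith
      have : (i : ℝ) - α ≠ 0 := by linarith
      field_simp
    linarith

end Pool.Agent.Helper890
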