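import Mathlib
import Pool.Agent.Helper890.ChiLarge

namespace Pool.Agent.Helper890

open Finset

lemma D_ge_7 {p : ℕ} (hp : 30 ≤ p) : 7 ≤ chi (p + 1) - chi p := by
  have h := D_mono (p := 30) (q := p) (by norm_num) hp
  rw [chi_30, chi_tab 31 (by norm_num) (by norm_num)] at h
  have h2 : T 31 = 133 := by decide +kernel
  rw [h2] at h
  norm_num at h
  linarith

def chkD (p : ℕ) : Bool := Nat.ble (30 * (T (p + 1) - T p)) (7 * p) && Nat.ble (T p) (T (p + 1))

def chkDAll : ℕ → Bool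
  | 0 => true
  | n + 1 => chkD (n + 30) && chkDAll n

lemma chkDAll_spec : ∀ n, chkDAll n = true → ∀ i, 30 ≤ i → i < n + 30 → chkD i = true := by
  intro n
  induction n with
  | zero => intro _ i h1 h2; omega
  | succ n ih =>
    intro h i h1 h2
    rw [chkDAll, Bool.and_eq_true] at h
    rcases Nat.lt_or_ge i (n + 30) with h3 | h3
    · exact ih h.2 i h1 h3
    · have : i = n + 30 := by omega
      rw [this]; exact h.1

lemma chkDAll_280 : chkDAll 280 = true := by decide +kernel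

lemma D_le {p : ℕ} (hp : 30 ≤ p) : 30 * (chi (p + 1) - chi p) ≤ 7 * (p : ℤ) := by
  rcases Nat.lt_or_ge p 310 with h | h
  · have hc := chkDAll_spec 280 chkDAll_280 p hp (by omega)
    unfold chkD at hc
    simp only [Bool.and_eq_true, Nat.ble_eq] at hc
    obtain ⟨c1, c2⟩ := hc
    rw [chi_tab p (by omega) (by omega), chi_tab (p + 1) (by omega) (by omega)]
    have : ((30 * (T (p + 1) - T p) : ℕ) : ℤ) ≤ ((7 * p : ℕ) : ℤ) := by exact_mod_cast c1
    push_cast [Nat.cast_sub c2] at this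
    exact this
  · obtain ⟨b1, b2, b3, b4, b5, b6⟩ := par_spec (i := p + 1) (by omega)
    have b7 := par_ge_30 (i := p + 1) (by omega)
    set q' := par (p + 1) with hq'
    rw [show p + 1 - 1 = p by omega] at b4
    have Y1 := Yb b7
    have hD : chi (p + 1) - chi p = (q' : ℤ) + 1 := by rw [b3, b4]; push_cast; ring
    rw [hD]
    have b8 : chi q' + (q' : ℤ) * (chi q' - chi (q' - 1)) ≤ p := by
      have h6 := b6 (q' - 1) (by omega) (by omega)
      rw [bp_eq', show q' - 1 + 1 = q' by omega] at h6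
      have e : ((q' - 1 : ℕ) : ℤ) = (q' : ℤ) - 1 := by omega
      rw [e] at h6
      push_cast at h6
      linarith
    have h9 := chi_ge (i := q') (j := 2) (by omega) (by norm_num)
    rw [chi_two] at h9
    push_cast at h9
    have h10 : (30 : ℤ) ≤ q' := by exact_mod_cast b7
    linarith

lemma D_step {p : ℕ} (hp : 3 ≤ p) : chi (p + 1) - chi p - 1 ≤ chi p - chi (p - 1) := by
  obtain ⟨a1, a2, a3, a4, a5, a6⟩ := par_spec (i := p) (by omega)
  obtain ⟨b1, b2, b3, b4, b5, b6⟩ := par_spec (i := p + 1) (by omega)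
  have h1 : par (p + 1) ≤ par p + 1 := by
    rw [par_le_iff (by omega) (by omega)]
    have := bp_lt_succ a1
    push_cast
    linarith
  rw [show p + 1 - 1 = p by omega] at b4
  have hD : chi (p + 1) - chi p = (par (p + 1) : ℤ) + 1 := by rw [b3, b4]; push_cast; ring
  have hD' : chi p - chi (p - 1) = (par p : ℤ) + 1 := by rw [a3, a4]; ring
  rw [hD, hD']
  have : (par (p + 1) : ℤ) ≤ par p + 1 := by exact_mod_cast h1
  linarith

/-- the local inequality -/
def TT (j p : ℕ) : Prop :=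
  (chi p : ℝ) * chi (p + 1) *
    (((p : ℝ) + 2) * ((chi (p + 1) : ℝ) - chi p) - (p : ℝ) * ((chi p : ℝ) - chi (p - 1))) ≤
  (j : ℝ) * ((j : ℝ) + 1) * ((chi (p + 1) : ℝ) - chi p) *
    ((p : ℝ) * ((chi p : ℝ) - chi (p - 1)) - ((chi (p + 1) : ℝ) - chi p))

lemma TT_real {x y c d d' : ℝ} (k7 : 7 ≤ d) (kDl : 30 * d ≤ 7 * x) (kst : d - 1 ≤ d')
    (kcv : d' ≤ d) (kR : 3 * c ≤ 2 * x * d) (hc : 0 < c) (hp0 : 30 ≤ x) (hj0 : 30 ≤ y)
    (hratio : x + 1 < 1.066 * (y + 1)) :
    c * (c + d) * ((x + 2) * d - x * d') ≤ y * (y + 1) * d * (x * d' - d) := by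
  have hx0 : 0 < x := by linarith
  have hd0 : 0 < d := by linarith
  -- LHS bound
  have L1 : (x + 2) * d - x * d' ≤ 22 / 15 * x := by nlinarith
  have L0 : 0 ≤ (x + 2) * d - x * d' := by nlinarith
  have L2 : c * (c + d) ≤ (2 / 3 * x * d) * (2 / 3 * x * d + d) := by
    apply mul_le_mul <;> nlinarith
  have L3 : c * (c + d) * ((x + 2) * d - x * d') ≤
      ((2 / 3 * x * d) * (2 / 3 * x * d + d)) * (22 / 15 * x) := by
    apply mul_le_mul L2 L1 L0; positivity
  -- RHS bound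
  have R1 : 173 / 210 * (x * d) ≤ x * d' - d := by nlinarith
  have R2 : (44 : ℝ) / 135 * (x * (2 * x + 3)) ≤ 173 / 210 * (y * (y + 1)) := by
    nlinarith
  calc c * (c + d) * ((x + 2) * d - x * d')
      ≤ ((2 / 3 * x * d) * (2 / 3 * x * d + d)) * (22 / 15 * x) := L3
    _ = (44 / 135 * (x * (2 * x + 3))) * (x * d ^ 2) := by ring
    _ ≤ (173 / 210 * (y * (y + 1))) * (x * d ^ 2) := by
        apply mul_le_mul_of_nonneg_right R2 (by positivity)
    _ = y * (y + 1) * d * (173 / 210 * (x * d)) := by ring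
    _ ≤ y * (y + 1) * d * (x * d' - d) := by
        apply mul_le_mul_of_nonneg_left R1 (by positivity)

lemma TT_generic {j p : ℕ} (hj : 30 ≤ j) (hjp : j ≤ p) (hc : 10 * chi p < 11 * chi j) : TT j p := by
  have hp : 30 ≤ p := by omega
  unfold TT
  have hG := growth hj hjp
  have hR : 3 * (chi p : ℝ) ≤ 2 * (p : ℝ) * ((chi (p + 1) : ℝ) - chi p) := by
    exact_mod_cast Rb hp
  have h7 : (7 : ℝ) ≤ (chi (p + 1) : ℝ) - chi p := by exact_mod_cast D_ge_7 hp
  have hDl : 30 * ((chi (p + 1) : ℝ) - chi p) ≤ 7 * (p : ℝ) := by exact_mod_cast D_le hp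
  have hst : (chi (p + 1) : ℝ) - chi p - 1 ≤ (chi p : ℝ) - chi (p - 1) := by
    exact_mod_cast D_step (p := p) (by omega)
  have hcv : (chi p : ℝ) - chi (p - 1) ≤ (chi (p + 1) : ℝ) - chi p := by
    have := chi_convex (p := p - 1) (by omega)
    rw [show p - 1 + 1 = p by omega, show p - 1 + 2 = p + 1 by omega] at this
    exact_mod_cast this
  have hp0 : (30 : ℝ) ≤ p := by exact_mod_cast hp
  have hj0 : (30 : ℝ) ≤ j := by exact_mod_cast hj
  have hcj : (0 : ℝ) < chi j := chi_posR (by omega)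
  have hcp : (0 : ℝ) < chi p := chi_posR (by omega)
  have hc' : 10 * (chi p : ℝ) < 11 * chi j := by exact_mod_cast hc
  -- ratio of indices
  have hratio : ((p : ℝ) + 1) < 1.066 * ((j : ℝ) + 1) := by
    by_contra hcon
    rw [not_lt] at hcon
    have h1 : (1.066 * ((j : ℝ) + 1)) ^ 3 ≤ ((p : ℝ) + 1) ^ 3 :=
      pow_le_pow_left₀ (by positivity) hcon 3
    have h2 : ((j : ℝ) + 1) ^ 3 * (chi p : ℝ) ^ 2 < ((j : ℝ) + 1) ^ 3 * (1.21 * (chi j : ℝ) ^ 2) := by
      apply mul_lt_mul_of_pos_left _ (by positivity)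
      nlinarith
    have h3 : (1.066 * ((j : ℝ) + 1)) ^ 3 * (chi j : ℝ) ^ 2 ≤ ((p : ℝ) + 1) ^ 3 * (chi j : ℝ) ^ 2 :=
      mul_le_mul_of_nonneg_right h1 (by positivity)
    have h4 : (0 : ℝ) < ((j : ℝ) + 1) ^ 3 * (chi j : ℝ) ^ 2 := by positivity
    nlinarith
  have := TT_real h7 hDl hst hcv hR hcp hp0 hj0 hratio
  rw [add_sub_cancel] at this
  exact this

end Pool.Agent.Helper890
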