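import Mathlib
import Pool.Agent.Helper890.ChiCase1

namespace Pool.Agent.Helper890

open Finset

lemma sum_Ioc_tele {f g : ℕ → ℝ} {a b : ℕ} (hab : a ≤ b)
    (h : ∀ i, a < i → i ≤ b → g i ≤ f (i - 1) - f i) : ∑ i ∈ Ioc a b, g i ≤ f a - f b := by
  induction b, hab using Nat.le_induction with
  | base => simp
  | succ n hn ih =>
    rw [Finset.sum_Ioc_succ_top (by omega)]
    have h1 := ih (fun i h1 h2 => h i h1 (by omega))
    have h2 := h (n + 1) (by omega) le_rfl
    rw [show n + 1 - 1 = n by omega] at h2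
    linarith

lemma bN_real {p : ℕ} (hp : 1 ≤ p) :
    ((bN p : ℕ) : ℝ) = chi p + ((p : ℝ) + 2) * ((chi (p + 1) : ℝ) - chi p) := by
  have h := bN_cast hp
  rw [bp_eq] at h
  exact_mod_cast h

lemma bN_real' {p : ℕ} (hp : 2 ≤ p) :
    ((bN (p - 1) : ℕ) : ℝ) = chi p + (p : ℝ) * ((chi p : ℝ) - chi (p - 1)) := by
  have h := bN_cast (p := p - 1) (by omega)
  rw [bp_eq', show p - 1 + 1 = p by omega] at h
  have e : ((p - 1 : ℕ) : ℤ) = (p : ℤ) - 1 := by omega
  rw [e] at h
  have h2 : ((bN (p - 1) : ℕ) : ℤ) = chi p + (p : ℤ) * (chi p - chi (p - 1)) := by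
    rw [h]; ring
  exact_mod_cast h2

lemma par_group {q i : ℕ} (hq : 2 ≤ q) (h1 : bN (q - 1) < i) (h2 : i ≤ bN q) :
    3 ≤ i ∧ par i = q := by
  have h3 : 3 ≤ i := by
    have := bN_ge (p := q - 1) (by omega)
    omega
  refine ⟨h3, le_antisymm ((par_le_iff_bN h3 (by omega)).mpr h2) ?_⟩
  by_contra hcon
  have := (par_le_iff_bN h3 (p := q - 1) (by omega)).mp (by omega)
  omega

/-- basic numerical facts for a group -/
lemma group_facts {q : ℕ} (hq : 30 ≤ q) :
    (7 : ℝ) ≤ (chi (q + 1) : ℝ) - chi q ∧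
    2 * ((chi (q + 1) : ℝ) - chi q) ≤ (q : ℝ) * ((chi q : ℝ) - chi (q - 1)) := by
  have h7 : (7 : ℝ) ≤ (chi (q + 1) : ℝ) - chi q := by exact_mod_cast D_ge_7 hq
  have hst : (chi (q + 1) : ℝ) - chi q - 1 ≤ (chi q : ℝ) - chi (q - 1) := by
    exact_mod_cast D_step (p := q) (by omega)
  have hq0 : (30 : ℝ) ≤ q := by exact_mod_cast hq
  refine ⟨h7, ?_⟩
  nlinarith

lemma group_bound {j q : ℕ} (hj : 30 ≤ j) (hjq : j ≤ q) (hT : TT j q) :
    ∑ i ∈ Ioc (bN (q - 1)) (bN q), 1 / ((j : ℝ) * ((j : ℝ) + 1)) * (1 / tt i) ≤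
      1 / (chi q : ℝ) - 1 / (chi (q + 1) : ℝ) := by
  have hq : 30 ≤ q := by omega
  obtain ⟨h7, hm⟩ := group_facts hq
  have eb := bN_real (p := q) (by omega)
  have eb' := bN_real' (p := q) (by omega)
  have hcq : (0 : ℝ) < chi q := chi_posR (by omega)
  have hcq1 : (0 : ℝ) < chi (q + 1) := chi_posR (by omega)
  unfold TT at hT
  set c := (chi q : ℝ) with hc
  set c1 := (chi (q + 1) : ℝ) with hc1
  set d := c1 - c with hd
  set m := (q : ℝ) * (c - chi (q - 1)) with hmdef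
  have hj0 : (30 : ℝ) ≤ j := by exact_mod_cast hj
  have hmpos : 0 < m := by linarith
  have hle : bN (q - 1) ≤ bN q := bN_mono (by omega) (by omega)
  have hterm : ∀ i ∈ Ioc (bN (q - 1)) (bN q),
      1 / ((j : ℝ) * ((j : ℝ) + 1)) * (1 / tt i) ≤ 1 / ((j : ℝ) * ((j : ℝ) + 1)) * (1 / m) := by
    intro i hi
    rw [mem_Ioc] at hi
    obtain ⟨h3, hpar⟩ := par_group (by omega) hi.1 hi.2
    have h4 : ((bN (q - 1) : ℕ) : ℝ) < i := by exact_mod_cast hi.1
    apply mul_le_mul_of_nonneg_left _ (by positivity)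
    apply one_div_le_one_div_of_le hmpos
    unfold tt
    rw [hpar]
    linarith
  have hsum := Finset.sum_le_sum hterm
  rw [Finset.sum_const, Nat.card_Ioc, nsmul_eq_mul, Nat.cast_sub hle, eb, eb'] at hsum
  refine hsum.trans ?_
  have e1 : c + ((q : ℝ) + 2) * d - (c + m) = ((q : ℝ) + 2) * d - m := by ring
  rw [e1]
  have hjj : (0 : ℝ) < (j : ℝ) * ((j : ℝ) + 1) := by positivity
  have e2 : 1 / c - 1 / c1 = d / (c * c1) := by
    rw [hd]; field_simp
  rw [e2]
  have e3 : (((q : ℝ) + 2) * d - m) * (1 / ((j : ℝ) * ((j : ℝ) + 1)) * (1 / m)) =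
      (((q : ℝ) + 2) * d - m) / ((j : ℝ) * ((j : ℝ) + 1) * m) := by
    field_simp
  rw [e3, div_le_div_iff₀ (by positivity) (by positivity)]
  have h8 : (j : ℝ) * ((j : ℝ) + 1) * d * (m - d) ≤ (j : ℝ) * ((j : ℝ) + 1) * d * m := by
    apply mul_le_mul_of_nonneg_left _ (by positivity)
    linarith
  calc (((q : ℝ) + 2) * d - m) * (c * c1) = c * c1 * (((q : ℝ) + 2) * d - m) := by ring
    _ ≤ (j : ℝ) * ((j : ℝ) + 1) * d * m := hT.trans h8
    _ = d * ((j : ℝ) * ((j : ℝ) + 1) * m) := by ring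

lemma groups_bound {j q : ℕ} (hj : 30 ≤ j) (hjq : j ≤ q) (hT : ∀ p, j ≤ p → p < q → TT j p) :
    ∑ i ∈ Ioc (bN (j - 1)) (bN (q - 1)), 1 / ((j : ℝ) * ((j : ℝ) + 1)) * (1 / tt i) ≤
      1 / (chi j : ℝ) - 1 / (chi q : ℝ) := by
  induction q, hjq using Nat.le_induction with
  | base => simp
  | succ n hn ih =>
    have h1 := ih (fun p hp hpn => hT p hp (by omega))
    have h2 := group_bound hj hn (hT n hn (by omega))
    rw [show n + 1 - 1 = n by omega]
    have h3 : ∑ i ∈ Ioc (bN (j - 1)) (bN n), 1 / ((j : ℝ) * ((j : ℝ) + 1)) * (1 / tt i) =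
        ∑ i ∈ Ioc (bN (j - 1)) (bN (n - 1)), 1 / ((j : ℝ) * ((j : ℝ) + 1)) * (1 / tt i) +
        ∑ i ∈ Ioc (bN (n - 1)) (bN n), 1 / ((j : ℝ) * ((j : ℝ) + 1)) * (1 / tt i) := by
      rw [Finset.sum_Ioc_consecutive]
      · exact bN_mono (by omega) (by omega)
      · exact bN_mono (by omega) (by omega)
    rw [h3]
    linarith

lemma last_group {j q : ℕ} {α : ℝ} (hj : 30 ≤ j) (hjq : j ≤ q) (hT : TT j q)
    (h1 : (chi q : ℝ) < α) (h2 : α ≤ chi (q + 1)) :
    (∀ i, bN (q - 1) < i → i ≤ bN q → α < i ∧ 0 ≤ 1 / (((j : ℝ) + 1)) * (1 / ((i : ℝ) - α) - 1 / tt i)) ∧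
    ∑ i ∈ Ioc (bN (q - 1)) (bN q), 1 / (((j : ℝ) + 1)) * (1 / ((i : ℝ) - α) - 1 / tt i) ≤
      1 / (chi q : ℝ) - 1 / α := by
  have hq : 30 ≤ q := by omega
  obtain ⟨h7, hm⟩ := group_facts hq
  have eb := bN_real (p := q) (by omega)
  have eb' := bN_real' (p := q) (by omega)
  have hcq : (0 : ℝ) < chi q := chi_posR (by omega)
  have hcq1 : (0 : ℝ) < chi (q + 1) := chi_posR (by omega)
  unfold TT at hT
  set c := (chi q : ℝ) with hc
  set c1 := (chi (q + 1) : ℝ) with hc1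
  set d := c1 - c with hd
  set m := (q : ℝ) * (c - chi (q - 1)) with hmdef
  have hj0 : (30 : ℝ) ≤ j := by exact_mod_cast hj
  have hjq' : (j : ℝ) ≤ q := by exact_mod_cast hjq
  have hmpos : 0 < m := by linarith
  have hα : 0 < α := by linarith
  have hle : bN (q - 1) ≤ bN q := bN_mono (by omega) (by omega)
  have hi_facts : ∀ i, bN (q - 1) < i → i ≤ bN q → m + 1 ≤ tt i ∧ tt i = (i : ℝ) - c := by
    intro i hi1 hi2
    obtain ⟨h3, hpar⟩ := par_group (by omega) hi1 hi2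
    have h4 : ((bN (q - 1) : ℕ) : ℝ) + 1 ≤ i := by exact_mod_cast hi1
    unfold tt
    rw [hpar]
    constructor
    · linarith
    · rfl
  constructor
  · intro i hi1 hi2
    obtain ⟨h3, h4⟩ := hi_facts i hi1 hi2
    have h5 : α < i := by linarith
    refine ⟨h5, ?_⟩
    apply mul_nonneg (by positivity)
    rw [sub_nonneg]
    apply one_div_le_one_div_of_le <;> linarith
  · have hstep : ∀ i, bN (q - 1) < i → i ≤ bN q →
        1 / (((j : ℝ) + 1)) * (1 / ((i : ℝ) - α) - 1 / tt i) ≤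
        (fun k : ℕ => (α - c) / ((j : ℝ) + 1) * (1 / ((k : ℝ) - c1))) (i - 1) -
        (fun k : ℕ => (α - c) / ((j : ℝ) + 1) * (1 / ((k : ℝ) - c1))) i := by
      intro i hi1 hi2
      obtain ⟨h3, h4⟩ := hi_facts i hi1 hi2
      have hcast : ((i - 1 : ℕ) : ℝ) = (i : ℝ) - 1 := by
        rw [Nat.cast_sub (by omega)]; simp
      simp only [hcast]
      rw [h4]
      set t := (i : ℝ) - c with ht
      have e1 : (i : ℝ) - α = t - (α - c) := by rw [ht]; ring
      have e2 : (i : ℝ) - 1 - c1 = t - d - 1 := by rw [ht, hd]; ring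
      have e3 : (i : ℝ) - c1 = t - d := by rw [ht, hd]; ring
      rw [e1, e2, e3]
      set x := α - c with hx
      have hx0 : 0 < x := by linarith
      have hxd : x ≤ d := by linarith
      have ht1 : 0 < t - x := by linarith
      have ht2 : 0 < t - d - 1 := by linarith
      have ht3 : 0 < t - d := by linarith
      have ht4 : 0 < t := by linarith
      have e4 : 1 / (t - x) - 1 / t = x / ((t - x) * t) := by field_simp; ring
      have e5 : x / ((j : ℝ) + 1) * (1 / (t - d - 1)) - x / ((j : ℝ) + 1) * (1 / (t - d)) =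
          1 / ((j : ℝ) + 1) * (x / ((t - d - 1) * (t - d))) := by field_simp; ring
      rw [e4, e5]
      apply mul_le_mul_of_nonneg_left _ (by positivity)
      apply div_le_div_of_nonneg_left hx0.le (by positivity)
      apply mul_le_mul <;> linarith
    refine (sum_Ioc_tele (f := fun k : ℕ => (α - c) / ((j : ℝ) + 1) * (1 / ((k : ℝ) - c1)))
      hle hstep).trans ?_
    rw [eb, eb']
    have e1 : c + m - c1 = m - d := by rw [hd]; ring
    have e2 : c + ((q : ℝ) + 2) * d - c1 = ((q : ℝ) + 1) * d := by rw [hd]; ring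
    rw [e1, e2]
    have hmd : 0 < m - d := by linarith
    have hMd : 0 < ((q : ℝ) + 1) * d := by positivity
    have e3 : (α - c) / ((j : ℝ) + 1) * (1 / (m - d)) - (α - c) / ((j : ℝ) + 1) * (1 / (((q : ℝ) + 1) * d)) =
        (α - c) * ((((q : ℝ) + 2) * d - m) / (((j : ℝ) + 1) * (m - d) * (((q : ℝ) + 1) * d))) := by
      field_simp; ring
    have e4 : 1 / c - 1 / α = (α - c) * (1 / (c * α)) := by field_simp
    rw [e3, e4]
    apply mul_le_mul_of_nonneg_left _ (by linarith)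
    rw [div_le_div_iff₀ (by positivity) (by positivity), one_mul]
    rcases le_or_gt (((q : ℝ) + 2) * d - m) 0 with hneg | hposM
    · have : (((q : ℝ) + 2) * d - m) * (c * α) ≤ 0 := by
        apply mul_nonpos_of_nonpos_of_nonneg hneg (by positivity)
      have : 0 < ((j : ℝ) + 1) * (m - d) * (((q : ℝ) + 1) * d) := by positivity
      linarith
    · calc (((q : ℝ) + 2) * d - m) * (c * α) ≤ (((q : ℝ) + 2) * d - m) * (c * c1) := by
            apply mul_le_mul_of_nonneg_left _ hposM.le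
            apply mul_le_mul_of_nonneg_left h2 hcq.le
        _ = c * c1 * (((q : ℝ) + 2) * d - m) := by ring
        _ ≤ (j : ℝ) * ((j : ℝ) + 1) * d * (m - d) := hT
        _ ≤ ((j : ℝ) + 1) * (m - d) * (((q : ℝ) + 1) * d) := by
            have : (j : ℝ) * (((j : ℝ) + 1) * d * (m - d)) ≤ ((q : ℝ) + 1) * (((j : ℝ) + 1) * d * (m - d)) := by
              apply mul_le_mul_of_nonneg_right _ (by positivity)
              linarith
            linarith

lemma exists_q {j : ℕ} {α : ℝ} (hj : 1 ≤ j) (h : (chi j : ℝ) < α) :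
    ∃ q, j ≤ q ∧ (chi q : ℝ) < α ∧ α ≤ chi (q + 1) := by
  have hex : ∃ q, j ≤ q ∧ α ≤ (chi (q + 1) : ℝ) := by
    obtain ⟨n, hn⟩ := exists_nat_ge α
    refine ⟨max j n, le_max_left _ _, hn.trans ?_⟩
    have h1 := chi_ge_self (i := max j n + 1) (by omega)
    have h2 : (((max j n + 1 : ℕ)) : ℝ) ≤ chi (max j n + 1) := by exact_mod_cast h1
    have h3 : (n : ℝ) ≤ ((max j n + 1 : ℕ) : ℝ) := by
      exact_mod_cast (le_max_right j n).trans (Nat.le_succ _)
    linarith
  classical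
  obtain ⟨h1, h2⟩ := Nat.find_spec hex
  refine ⟨Nat.find hex, h1, ?_, h2⟩
  rcases Nat.eq_or_lt_of_le h1 with h3 | h3
  · rw [← h3]; exact h
  · have h4 := Nat.find_min hex (m := Nat.find hex - 1) (by omega)
    push Not at h4
    have h5 := h4 (by omega)
    rw [show Nat.find hex - 1 + 1 = Nat.find hex by omega] at h5
    exact h5

/-- Case 1: alpha close to chi j -/
lemma case1 {j n : ℕ} {α : ℝ} (hj : 30 ≤ j) (h1 : (chi j : ℝ) < α) (h2 : 10 * α ≤ 11 * chi j) :
    ∑ i ∈ Icc 1 n, F j α i ≤ 1 / (chi j : ℝ) - 1 / α := by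
  obtain ⟨q, hq1, hq2, hq3⟩ := exists_q (by omega) h1
  have hcj : (0 : ℝ) < chi j := chi_posR (by omega)
  have hα : 0 < α := by linarith
  have hTT : ∀ p, j ≤ p → p ≤ q → TT j p := by
    intro p hp1 hp2
    apply TT_generic hj hp1
    have h3 : (chi p : ℝ) ≤ chi q := by exact_mod_cast chi_mono (by omega) hp2
    have h4 : 10 * (chi p : ℝ) < 11 * chi j := by linarith
    exact_mod_cast h4
  obtain ⟨hL1, hL2⟩ := last_group hj hq1 (hTT q hq1 le_rfl) hq2 hq3
  have hG := groups_bound hj hq1 (fun p hp1 hp2 => hTT p hp1 hp2.le)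
  set G : ℕ → ℝ := fun i => if i ≤ bN (q - 1) then 1 / ((j : ℝ) * ((j : ℝ) + 1)) * (1 / tt i)
    else 1 / (((j : ℝ) + 1)) * (1 / ((i : ℝ) - α) - 1 / tt i) with hGdef
  have hb1 : bN (j - 1) ≤ bN (q - 1) := bN_mono (by omega) (by omega)
  have hb2 : bN (q - 1) ≤ bN q := bN_mono (by omega) (by omega)
  have hle : ∑ i ∈ Icc 1 n, F j α i ≤ ∑ i ∈ Ioc (bN (j - 1)) (bN q), G i := by
    apply sum_le_of_support
    · intro i _ hne
      obtain ⟨f1, f2, f3, f4, f5, f6⟩ := F_large hj hα hne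
      have f7 : bN (j - 1) < i := by
        by_contra hcon
        have := (par_le_iff_bN f1 (p := j - 1) (by omega)).mpr (by omega)
        omega
      have f8 : par i ≤ q := by
        by_contra hcon
        have h3 : (chi (q + 1) : ℝ) ≤ chi (par i) := by
          exact_mod_cast chi_mono (by omega) (by omega)
        linarith
      have f9 : i ≤ bN q := (par_le_iff_bN f1 (by omega)).mp f8
      refine ⟨mem_Ioc.mpr ⟨f7, f9⟩, ?_⟩
      simp only [hGdef]
      by_cases hc : i ≤ bN (q - 1)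
      · rw [if_pos hc]; exact f5
      · rw [if_neg hc]
        exact f6 (hL1 i (by omega) f9).1
    · intro i hi
      rw [mem_Ioc] at hi
      simp only [hGdef]
      by_cases hc : i ≤ bN (q - 1)
      · rw [if_pos hc]
        have h3 : 3 ≤ i := by have := bN_ge (p := j - 1) (by omega); omega
        have := (tt_facts h3).2.2
        positivity
      · rw [if_neg hc]
        exact (hL1 i (by omega) hi.2).2
  have hsplit : ∑ i ∈ Ioc (bN (j - 1)) (bN q), G i =
      ∑ i ∈ Ioc (bN (j - 1)) (bN (q - 1)), 1 / ((j : ℝ) * ((j : ℝ) + 1)) * (1 / tt i) +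
      ∑ i ∈ Ioc (bN (q - 1)) (bN q), 1 / (((j : ℝ) + 1)) * (1 / ((i : ℝ) - α) - 1 / tt i) := by
    rw [← Finset.sum_Ioc_consecutive G hb1 hb2]
    congr 1
    · apply Finset.sum_congr rfl
      intro i hi
      rw [mem_Ioc] at hi
      simp only [hGdef]
      rw [if_pos hi.2]
    · apply Finset.sum_congr rfl
      intro i hi
      rw [mem_Ioc] at hi
      simp only [hGdef]
      rw [if_neg (by omega)]
  linarith

end Pool.Agent.Helper890
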