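import Mathlib
import Pool.Agent.Helper890.ChiCase1b

namespace Pool.Agent.Helper890

open Finset

def kk (j : ℕ) : ℕ := if j < 48 then 6 else if j < 97 then 7 else if j < 194 then 8 else 9

def chkK (j : ℕ) : Bool :=
  Nat.ble (28 * T j * (15 * kk j * 693148 * 2 ^ kk j + 28 * (j + 1) * 1000000))
    (j * (28 * j + 13) * 9 * 2 ^ kk j * 1000000 + 28 * T j * 12480000 * 2 ^ kk j) &&
  Nat.ble (5 * T j) (j * (j + 1))

def chkKAll : ℕ → Bool
  | 0 => true
  | n + 1 => chkK (n + 30) && chkKAll n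

lemma chkKAll_spec : ∀ n, chkKAll n = true → ∀ i, 30 ≤ i → i < n + 30 → chkK i = true := by
  intro n
  induction n with
  | zero => intro _ i h1 h2; omega
  | succ n ih =>
    intro h i h1 h2
    rw [chkKAll, Bool.and_eq_true] at h
    rcases Nat.lt_or_ge i (n + 30) with h3 | h3
    · exact ih h.2 i h1 h3
    · have : i = n + 30 := by omega
      rw [this]; exact h.1

lemma chkKAll_280 : chkKAll 280 = true := by decide +kernel

lemma log_le_pow (E : ℝ) (hE : 0 < E) (k : ℕ) :
    Real.log E ≤ k * 0.693148 + E / 2 ^ k - 1 := by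
  have h2 : (0 : ℝ) < 2 ^ k := by positivity
  have h3 := Real.log_le_sub_one_of_pos (div_pos hE h2)
  rw [Real.log_div hE.ne' h2.ne', Real.log_pow] at h3
  have h4 := Real.log_two_lt_d9
  have h5 : (k : ℝ) * Real.log 2 ≤ k * 0.693148 := by
    apply mul_le_mul_of_nonneg_left _ (by positivity)
    linarith
  linarith

lemma K_small {j : ℕ} (h1 : 30 ≤ j) (h2 : j ≤ 309) :
    5 / 3 * Real.log (28 / 15 * ((j : ℝ) + 1)) + 7 / 25 ≤
      (j : ℝ) * ((j : ℝ) + 1) / chi j * (1 - 1 / (28 / 15 * ((j : ℝ) + 1))) ∧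
    5 ≤ (j : ℝ) * ((j : ℝ) + 1) / chi j := by
  have hc := chkKAll_spec 280 chkKAll_280 j h1 (by omega)
  unfold chkK at hc
  simp only [Bool.and_eq_true, Nat.ble_eq] at hc
  obtain ⟨c1, c2⟩ := hc
  have hct := chi_tab j (by omega) (by omega)
  have hct' : (chi j : ℝ) = (T j : ℝ) := by rw [hct]; norm_cast
  have hcpos : (0 : ℝ) < (T j : ℝ) := by rw [← hct']; exact chi_posR (by omega)
  rw [hct']
  have r1 : ((28 * T j * (15 * kk j * 693148 * 2 ^ kk j + 28 * (j + 1) * 1000000) : ℕ) : ℝ) ≤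
    ((j * (28 * j + 13) * 9 * 2 ^ kk j * 1000000 + 28 * T j * 12480000 * 2 ^ kk j : ℕ) : ℝ) := by
    exact_mod_cast c1
  have r2 : ((5 * T j : ℕ) : ℝ) ≤ ((j * (j + 1) : ℕ) : ℝ) := by exact_mod_cast c2
  push_cast at r1 r2
  set c := (T j : ℝ)
  set x := (j : ℝ)
  set k := kk j
  have hx : 0 ≤ x := by positivity
  constructor
  · have hE : 0 < 28 / 15 * (x + 1) := by positivity
    have hl := log_le_pow _ hE k
    have hw : (0 : ℝ) < 2 ^ k := by positivity
    set w : ℝ := 2 ^ k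
    have e1 : x * (x + 1) / c * (1 - 1 / (28 / 15 * (x + 1))) = x * (28 * x + 13) / (28 * c) := by
      field_simp; ring
    rw [e1]
    have e2 : 5 / 3 * ((k : ℝ) * 0.693148 + 28 / 15 * (x + 1) / w - 1) + 7 / 25 ≤
        x * (28 * x + 13) / (28 * c) := by
      rw [le_div_iff₀ (by positivity)]
      have e3 : (5 / 3 * ((k : ℝ) * 0.693148 + 28 / 15 * (x + 1) / w - 1) + 7 / 25) * (28 * c) =
        (28 * c * (15 * (k : ℝ) * 693148 * w + 28 * (x + 1) * 1000000) - 28 * c * 12480000 * w) /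
          (9 * w * 1000000) := by
        field_simp; ring
      rw [e3, div_le_iff₀ (by positivity)]
      linarith
    linarith
  · rw [le_div_iff₀ hcpos]
    linarith

lemma K_large {j : ℕ} (h1 : 310 ≤ j) :
    5 / 3 * Real.log (28 / 15 * ((j : ℝ) + 1)) + 7 / 25 ≤
      (j : ℝ) * ((j : ℝ) + 1) / chi j * (1 - 1 / (28 / 15 * ((j : ℝ) + 1))) ∧
    5 ≤ (j : ℝ) * ((j : ℝ) + 1) / chi j := by
  have hp := par_ge_30 (i := j) (by omega)
  obtain ⟨a1, a2, a3, a4, a5, a6⟩ := par_spec (i := j) (by omega)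
  obtain ⟨e1, e2, e3⟩ := tt_facts (i := j) (by omega)
  have ht := tt_le (i := j) (by omega) hp
  set p := par j with hpdef
  have hcp : (0 : ℝ) < chi p := chi_posR (by omega)
  have hjt : (j : ℝ) = chi p + tt j := by unfold tt; ring
  have hY : 10 * (chi p : ℝ) ≤ 7 * (p : ℝ) * ((chi p : ℝ) - chi (p - 1)) := by exact_mod_cast Yb hp
  have hbN : ((bN (p - 1) : ℕ) : ℝ) < j := by
    have : ¬ j ≤ bN (p - 1) := by
      intro hcon
      have := (par_le_iff_bN (i := j) (p := p - 1) (by omega) (by omega)).mpr hcon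
      omega
    exact_mod_cast (not_le.mp this)
  rw [bN_real' (p := p) (by omega)] at hbN
  -- A > 17/7 chi p
  have hA : 17 / 7 * (chi p : ℝ) < (j : ℝ) + 1 := by linarith
  -- growth
  have hG := growth (p := 30) (q := p) le_rfl hp
  have h30 : (chi 30 : ℝ) = 126 := by rw [chi_30]; norm_num
  rw [h30] at hG
  norm_num at hG
  have h4 : 4 * ((p : ℝ) + 1) ≤ chi p := by
    have h5 := chi_ge (i := p) (j := 5) (by omega) (by norm_num)
    have h6 : chi 5 = 9 := by
      rw [chi_tab 5 (by norm_num) (by norm_num)]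
      have : T 5 = 9 := by decide +kernel
      rw [this]; norm_num
    rw [h6] at h5
    push_cast at h5
    have h7 : (30 : ℤ) ≤ p := by exact_mod_cast hp
    have h8 : 4 * ((p : ℤ) + 1) ≤ chi p := by linarith
    exact_mod_cast h8
  have hj0 : (310 : ℝ) ≤ j := by exact_mod_cast h1
  have hp0 : (30 : ℝ) ≤ p := by exact_mod_cast hp
  rw [e1]
  set P : ℝ := (p : ℝ) + 1 with hP
  set t : ℝ := tt j with htdef
  set x : ℝ := (j : ℝ) with hx
  set cp : ℝ := (chi p : ℝ) with hcpdef
  have hPpos : 0 < P := by positivity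
  have htpos : 0 < t := by linarith
  set s : ℝ := (x + 1) / P with hs
  have hxs : x + 1 = s * P := by rw [hs]; field_simp
  have hspos : 0 < s := by positivity
  -- s ≥ 68/7
  have hs1 : 17 / 7 * cp ≤ s * P := by linarith
  have hs2 : (68 : ℝ) / 7 ≤ s := by
    have : 68 / 7 * P ≤ s * P := by linarith
    exact le_of_mul_le_mul_right this hPpos
  -- K ≥ 1.5 s
  have hK : 3 / 2 * s ≤ x * (x + 1) / (P * t) := by
    rw [le_div_iff₀ (by positivity)]
    have : 3 / 2 * s * (P * t) = 3 / 2 * t * (x + 1) := by rw [hxs]; ring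
    rw [this]
    apply mul_le_mul_of_nonneg_right _ (by positivity)
    linarith
  constructor
  · have hEs : 28 / 15 * (x + 1) ≤ s ^ 3 := by
      -- P * P^2 * 15876 ≤ 29791 * cp^2
      have g1 : P ^ 3 * 15876 ≤ 29791 * cp ^ 2 := by linarith
      have g2 : cp ≤ 7 / 17 * (s * P) := by linarith
      have g3 : cp ^ 2 ≤ (7 / 17 * (s * P)) ^ 2 := pow_le_pow_left₀ hcp.le g2 2
      have g4 : P ^ 3 * 15876 ≤ 29791 * (49 / 289) * s ^ 2 * P ^ 2 := by nlinarith
      have g5 : P * 15876 ≤ 29791 * (49 / 289) * s ^ 2 := by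
        have : P ^ 2 * (P * 15876) ≤ P ^ 2 * (29791 * (49 / 289) * s ^ 2) := by nlinarith
        exact le_of_mul_le_mul_left this (by positivity)
      rw [hxs]
      have g6 : P ≤ 15 / 28 * s ^ 2 := by nlinarith
      calc 28 / 15 * (s * P) ≤ 28 / 15 * (s * (15 / 28 * s ^ 2)) := by
            apply mul_le_mul_of_nonneg_left _ (by norm_num)
            exact mul_le_mul_of_nonneg_left g6 hspos.le
        _ = s ^ 3 := by ring
    have hE : 0 < 28 / 15 * (x + 1) := by positivity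
    have hl1 : Real.log (28 / 15 * (x + 1)) ≤ 3 * Real.log s := by
      have := Real.log_le_log hE hEs
      rw [Real.log_pow] at this
      exact_mod_cast this
    have hl2 := log_le_pow s hspos 3
    norm_num at hl2
    have hE1 : 1 / (28 / 15 * (x + 1)) ≤ 1 / 500 := by
      apply one_div_le_one_div_of_le <;> linarith
    have hK2 : 3 / 2 * s * (499 / 500) ≤ x * (x + 1) / (P * t) * (1 - 1 / (28 / 15 * (x + 1))) := by
      apply mul_le_mul hK (by linarith) (by norm_num)
      positivity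
    linarith
  · linarith

lemma K_all {j : ℕ} (h1 : 30 ≤ j) :
    5 / 3 * Real.log (28 / 15 * ((j : ℝ) + 1)) + 7 / 25 ≤
      (j : ℝ) * ((j : ℝ) + 1) / chi j * (1 - 1 / (28 / 15 * ((j : ℝ) + 1))) ∧
    5 ≤ (j : ℝ) * ((j : ℝ) + 1) / chi j := by
  rcases Nat.lt_or_ge j 310 with h | h
  · exact K_small h1 (by omega)
  · exact K_large h

/-- concavity step -/
lemma concave_step {K E u : ℝ} (hE : 1 < E) (hu1 : 1 / E ≤ u) (hu2 : u ≤ 10 / 11)
    (h1 : 5 / 3 * Real.log E + 7 / 25 ≤ K * (1 - 1 / E)) (h2 : 5 ≤ K) :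
    7 / 25 - 5 / 3 * Real.log u ≤ K * (1 - u) := by
  have hE0 : 0 < E := by linarith
  have hu0 : 0 < u := lt_of_lt_of_le (by positivity) hu1
  have hlog : Real.log (1 / E) = - Real.log E := by
    rw [one_div, Real.log_inv]
  have hl2 : -(1 / 10) ≤ Real.log (10 / 11) := by
    have := Real.one_sub_inv_le_log_of_pos (x := 10 / 11) (by norm_num)
    norm_num at this ⊢
    linarith
  rcases eq_or_lt_of_le (hu1.trans hu2) with heq | hlt
  · have : u = 1 / E := le_antisymm (by linarith) hu1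
    rw [this, hlog]; linarith
  · set b : ℝ := (u - 1 / E) / (10 / 11 - 1 / E) with hb
    have hd : 0 < 10 / 11 - 1 / E := by linarith
    have hb0 : 0 ≤ b := div_nonneg (by linarith) hd.le
    have hb1 : b ≤ 1 := by rw [hb, div_le_one hd]; linarith
    have hu : u = (1 - b) * (1 / E) + b * (10 / 11) := by
      have : b * (10 / 11 - 1 / E) = u - 1 / E := by
        rw [hb]; exact div_mul_cancel₀ _ hd.ne'
      linarith
    have hx1 : (1 / E : ℝ) ∈ Set.Ioi (0 : ℝ) := Set.mem_Ioi.mpr (by positivity)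
    have hx2 : (10 / 11 : ℝ) ∈ Set.Ioi (0 : ℝ) := Set.mem_Ioi.mpr (by norm_num)
    have hconc := strictConcaveOn_log_Ioi.concaveOn.2 hx1 hx2
      (show (0 : ℝ) ≤ 1 - b by linarith) hb0 (by ring)
    simp only [smul_eq_mul] at hconc
    rw [← hu, hlog] at hconc
    have k1 : (1 - b) * (5 / 3 * Real.log E + 7 / 25) ≤ (1 - b) * (K * (1 - 1 / E)) :=
      mul_le_mul_of_nonneg_left h1 (by linarith)
    have k2 : b * (7 / 25 - 5 / 3 * Real.log (10 / 11)) ≤ b * (K * (1 - 10 / 11)) := by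
      apply mul_le_mul_of_nonneg_left _ hb0
      linarith
    have k3 : K * (1 - u) = (1 - b) * (K * (1 - 1 / E)) + b * (K * (1 - 10 / 11)) := by
      rw [hu]; ring
    rw [k3]
    linarith

lemma growth_log {p q : ℕ} (hp : 30 ≤ p) (hpq : p ≤ q) :
    3 * Real.log ((q : ℝ) + 1) + 2 * Real.log (chi p) ≤
    3 * Real.log ((p : ℝ) + 1) + 2 * Real.log (chi q) := by
  have h := growth hp hpq
  have h1 : (0 : ℝ) < chi p := chi_posR (by omega)
  have h2 : (0 : ℝ) < chi q := chi_posR (by omega)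
  have h3 : (0 : ℝ) < (p : ℝ) + 1 := by positivity
  have h4 : (0 : ℝ) < (q : ℝ) + 1 := by positivity
  have h5 := Real.log_le_log (by positivity) h
  rw [Real.log_mul (by positivity) (by positivity), Real.log_mul (by positivity) (by positivity),
    Real.log_pow, Real.log_pow, Real.log_pow, Real.log_pow] at h5
  exact_mod_cast h5

lemma log_chi_bN_le {q : ℕ} (hq : 30 ≤ q) :
    Real.log (chi (bN q)) ≤ Real.log ((q : ℝ) + 1) + Real.log (28 / 15) + Real.log (chi q) := by
  have h1 : (0 : ℝ) < chi q := chi_posR (by omega)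
  have h0 : (chi (bN q) : ℝ) = ((q : ℝ) + 1) * (((q : ℝ) + 2) * ((chi (q + 1) : ℝ) - chi q)) := by
    exact_mod_cast chi_bN (p := q) (by omega)
  have hX : 15 * ((q : ℝ) + 2) * ((chi (q + 1) : ℝ) - chi q) ≤ 28 * chi q := by exact_mod_cast Xb hq
  have h7 : (7 : ℝ) ≤ (chi (q + 1) : ℝ) - chi q := by exact_mod_cast D_ge_7 hq
  rw [← Real.log_mul (by positivity) (by positivity), ← Real.log_mul (by positivity) (by positivity)]
  apply Real.log_le_log
  · rw [h0]; positivity
  · rw [h0]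
    have : (0 : ℝ) ≤ (q : ℝ) + 1 := by positivity
    nlinarith [mul_le_mul_of_nonneg_left hX this]

lemma log_chi_bN_ge {j : ℕ} (hj : 30 ≤ j) :
    Real.log ((j : ℝ) + 1) + Real.log (10 / 7) + Real.log (chi j) ≤ Real.log (chi (bN (j - 1))) := by
  have h1 : (0 : ℝ) < chi j := chi_posR (by omega)
  have h0 : (chi (bN (j - 1)) : ℝ) = ((j : ℝ) + 1) * ((j : ℝ) * ((chi j : ℝ) - chi (j - 1))) := by
    have h := chi_bN (p := j - 1) (by omega)
    rw [show j - 1 + 1 = j by omega] at h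
    have e : ((j - 1 : ℕ) : ℤ) = (j : ℤ) - 1 := by omega
    rw [e] at h
    have h2 : chi (bN (j - 1)) = ((j : ℤ) + 1) * ((j : ℤ) * (chi j - chi (j - 1))) := by
      rw [h]; ring
    exact_mod_cast h2
  have hY : 10 * (chi j : ℝ) ≤ 7 * (j : ℝ) * ((chi j : ℝ) - chi (j - 1)) := by exact_mod_cast Yb hj
  rw [← Real.log_mul (by positivity) (by positivity), ← Real.log_mul (by positivity) (by positivity)]
  apply Real.log_le_log
  · positivity
  · rw [h0]
    have : (0 : ℝ) ≤ (j : ℝ) + 1 := by positivity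
    nlinarith [mul_le_mul_of_nonneg_left hY this]

lemma F_support {j q i : ℕ} {α : ℝ} (hj : 30 ≤ j) (hα : 0 < α) (hq : j ≤ q)
    (hq3 : α ≤ chi (q + 1)) (hne : F j α i ≠ 0) : bN (j - 1) < i ∧ i ≤ bN q := by
  obtain ⟨f1, f2, f3, f4, f5, f6⟩ := F_large hj hα hne
  have f7 : bN (j - 1) < i := by
    by_contra hcon
    have := (par_le_iff_bN f1 (p := j - 1) (by omega)).mpr (by omega)
    omega
  have f8 : par i ≤ q := by
    by_contra hcon
    have h3 : (chi (q + 1) : ℝ) ≤ chi (par i) := by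
      exact_mod_cast chi_mono (by omega) (by omega)
    linarith
  exact ⟨f7, (par_le_iff_bN f1 (by omega)).mp f8⟩

/-- Case 2 -/
lemma case2 {j n : ℕ} {α : ℝ} (hj : 30 ≤ j) (h1 : 11 * (chi j : ℝ) < 10 * α)
    (h2 : α ≤ 28 / 15 * ((j : ℝ) + 1) * chi j) :
    ∑ i ∈ Icc 1 n, F j α i ≤ 1 / (chi j : ℝ) - 1 / α := by
  have hcj : (0 : ℝ) < chi j := chi_posR (by omega)
  have hα : 0 < α := by linarith
  obtain ⟨q, hq1, hq2, hq3⟩ := exists_q (j := j) (α := α) (by omega) (by linarith)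
  obtain ⟨hK1, hK2⟩ := K_all hj
  have hjj : (0 : ℝ) < (j : ℝ) * ((j : ℝ) + 1) := by
    have : (30 : ℝ) ≤ j := by exact_mod_cast hj
    positivity
  have hb : bN (j - 1) ≤ bN q := bN_mono (by omega) (by omega)
  have hb2 : 2 ≤ bN (j - 1) := by have := bN_ge (p := j - 1) (by omega); omega
  have hle : ∑ i ∈ Icc 1 n, F j α i ≤
      ∑ i ∈ Ioc (bN (j - 1)) (bN q), 1 / ((j : ℝ) * ((j : ℝ) + 1)) * (1 / tt i) := by
    apply sum_le_of_support
    · intro i _ hne
      obtain ⟨f1, f2, f3, f4, f5, f6⟩ := F_large hj hα hne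
      exact ⟨mem_Ioc.mpr (F_support hj hα hq1 hq3 hne), f5⟩
    · intro i hi
      rw [mem_Ioc] at hi
      have := (tt_facts (i := i) (by omega)).2.2
      positivity
  rw [← Finset.mul_sum] at hle
  have hs := sum_inv_tt hb2 hb
  have hl1 := log_chi_bN_le (q := q) (by omega)
  have hl2 := log_chi_bN_ge hj
  have hg := growth_log hj hq1
  have hcq : (0 : ℝ) < chi q := chi_posR (by omega)
  have hlq : Real.log (chi q) ≤ Real.log α := Real.log_le_log hcq hq2.le
  have hcst : Real.log (28 / 15) - Real.log (10 / 7) ≤ 7 / 25 := by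
    rw [← Real.log_div (by norm_num) (by norm_num)]
    rw [Real.log_le_iff_le_exp (by norm_num)]
    have := Real.quadratic_le_exp_of_nonneg (x := 7 / 25) (by norm_num)
    refine le_trans ?_ this
    norm_num
  have hD : ∑ i ∈ Ioc (bN (j - 1)) (bN q), 1 / tt i ≤
      7 / 25 + 5 / 3 * (Real.log α - Real.log (chi j)) := by linarith
  have hE : (1 : ℝ) < 28 / 15 * ((j : ℝ) + 1) := by
    have : (30 : ℝ) ≤ j := by exact_mod_cast hj
    linarith
  have hc := concave_step (K := (j : ℝ) * ((j : ℝ) + 1) / chi j) (E := 28 / 15 * ((j : ℝ) + 1))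
    (u := chi j / α) hE (by
      rw [div_le_div_iff₀ (by linarith) hα]; linarith) (by
      rw [div_le_div_iff₀ hα (by norm_num)]; linarith) hK1 hK2
  rw [Real.log_div hcj.ne' hα.ne'] at hc
  have hfin : 1 / ((j : ℝ) * ((j : ℝ) + 1)) * ((j : ℝ) * ((j : ℝ) + 1) / chi j * (1 - chi j / α)) =
      1 / (chi j : ℝ) - 1 / α := by
    field_simp
  calc ∑ i ∈ Icc 1 n, F j α i ≤ 1 / ((j : ℝ) * ((j : ℝ) + 1)) *
        ∑ i ∈ Ioc (bN (j - 1)) (bN q), 1 / tt i := hle
    _ ≤ 1 / ((j : ℝ) * ((j : ℝ) + 1)) * ((j : ℝ) * ((j : ℝ) + 1) / chi j * (1 - chi j / α)) := by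
        apply mul_le_mul_of_nonneg_left _ (by positivity)
        linarith
    _ = _ := hfin

/-- Case 3 -/
lemma case3 {j n : ℕ} {α : ℝ} (hj : 30 ≤ j)
    (h2 : 28 / 15 * ((j : ℝ) + 1) * chi j < α) :
    ∑ i ∈ Icc 1 n, F j α i ≤ 1 / (chi j : ℝ) - 1 / α := by
  classical
  have hj0 : (30 : ℝ) ≤ j := by exact_mod_cast hj
  have hcj : (0 : ℝ) < chi j := chi_posR (by omega)
  have hcj' : (126 : ℝ) ≤ chi j := by
    have := chi_mono (p := 30) (q := j) (by norm_num) hj
    rw [chi_30] at this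
    exact_mod_cast this
  have hjα : (chi j : ℝ) < α := by nlinarith
  have hα : 0 < α := by linarith
  obtain ⟨q, hq1, hq2, hq3⟩ := exists_q (j := j) (α := α) (by omega) hjα
  obtain ⟨hK1, hK2⟩ := K_all hj
  have hjj : (0 : ℝ) < (j : ℝ) * ((j : ℝ) + 1) := by positivity
  by_cases hemp : ((Icc 1 n).filter (fun i => F j α i ≠ 0)).Nonempty
  · set S := (Icc 1 n).filter (fun i => F j α i ≠ 0) with hS
    set i1 := S.min' hemp with hi1
    have hi1S : i1 ∈ S := Finset.min'_mem S hemp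
    have hne1 : F j α i1 ≠ 0 := (mem_filter.mp hi1S).2
    obtain ⟨f1, f2, f3, f4, f5, f6⟩ := F_large hj hα hne1
    obtain ⟨g1, g2⟩ := F_support hj hα hq1 hq3 hne1
    have hb1 : 30 ≤ bN (j - 1) := by have := bN_ge (p := j - 1) (by omega); omega
    have hle : ∑ i ∈ Icc 1 n, F j α i ≤
        ∑ i ∈ Ioc (i1 - 1) (bN q), 1 / ((j : ℝ) * ((j : ℝ) + 1)) * (1 / tt i) := by
      apply sum_le_of_support
      · intro i hi hne
        obtain ⟨f1, f2, f3, f4, f5, f6⟩ := F_large hj hα hne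
        have h5 : i1 ≤ i := Finset.min'_le S i (mem_filter.mpr ⟨hi, hne⟩)
        exact ⟨mem_Ioc.mpr ⟨by omega, (F_support hj hα hq1 hq3 hne).2⟩, f5⟩
      · intro i hi
        rw [mem_Ioc] at hi
        have := (tt_facts (i := i) (by omega)).2.2
        positivity
    rw [← Finset.mul_sum] at hle
    have hs := sum_inv_tt (s := i1 - 1) (e := bN q) (by omega) (by omega)
    have hl1 := log_chi_bN_le (q := q) (by omega)
    obtain ⟨e1, e2, e3⟩ := tt_facts f1
    have hpq : par i1 ≤ q := (par_le_iff_bN f1 (by omega)).mpr g2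
    have hg := growth_log (p := par i1) (q := q) (by omega) hpq
    have htl := tt_le f1 (by omega)
    have hcp : (0 : ℝ) < chi (par i1) := chi_posR (by omega)
    have hcq : (0 : ℝ) < chi q := chi_posR (by omega)
    set t := tt i1 with ht
    have ht0 : 0 < t := by linarith
    have ht5 : 5 < t := by nlinarith
    have hP : (0 : ℝ) < (par i1 : ℝ) + 1 := by positivity
    have hlog1 : Real.log (chi (i1 - 1)) = Real.log ((par i1 : ℝ) + 1) + Real.log (t - 1) := by
      rw [e2, Real.log_mul (by positivity) (by linarith)]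
    have hlog2 : Real.log t ≤ Real.log (28 / 15) + Real.log (chi (par i1)) := by
      rw [← Real.log_mul (by norm_num) (by positivity)]
      apply Real.log_le_log ht0
      linarith
    have hlog3 : Real.log (chi q) ≤ Real.log ((j : ℝ) + 1) + Real.log t := by
      rw [← Real.log_mul (by positivity) (by positivity)]
      apply Real.log_le_log hcq
      linarith
    have hlog4 : Real.log t - Real.log (t - 1) ≤ 7 / 25 := by
      rw [← Real.log_div (by linarith) (by linarith)]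
      have h6 := Real.log_le_sub_one_of_pos (x := t / (t - 1)) (by apply div_pos <;> linarith)
      have h7 : t / (t - 1) - 1 = 1 / (t - 1) := by
        have : t - 1 ≠ 0 := by linarith
        field_simp; ring
      have h8 : 1 / (t - 1) ≤ 1 / 4 := by apply one_div_le_one_div_of_le <;> linarith
      linarith
    have hlogE : Real.log (28 / 15 * ((j : ℝ) + 1)) = Real.log (28 / 15) + Real.log ((j : ℝ) + 1) := by
      rw [Real.log_mul (by norm_num) (by positivity)]
    have hD : ∑ i ∈ Ioc (i1 - 1) (bN q), 1 / tt i ≤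
        5 / 3 * Real.log (28 / 15 * ((j : ℝ) + 1)) + 7 / 25 := by
      rw [hlogE]
      linarith
    have hKα : (j : ℝ) * ((j : ℝ) + 1) / chi j * (1 - 1 / (28 / 15 * ((j : ℝ) + 1))) ≤
        (j : ℝ) * ((j : ℝ) + 1) / chi j * (1 - chi j / α) := by
      apply mul_le_mul_of_nonneg_left _ (by positivity)
      have : chi j / α ≤ 1 / (28 / 15 * ((j : ℝ) + 1)) := by
        rw [div_le_div_iff₀ hα (by positivity)]
        linarith
      linarith
    have hfin : 1 / ((j : ℝ) * ((j : ℝ) + 1)) * ((j : ℝ) * ((j : ℝ) + 1) / chi j * (1 - chi j / α)) =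
        1 / (chi j : ℝ) - 1 / α := by
      field_simp
    calc ∑ i ∈ Icc 1 n, F j α i ≤ 1 / ((j : ℝ) * ((j : ℝ) + 1)) *
          ∑ i ∈ Ioc (i1 - 1) (bN q), 1 / tt i := hle
      _ ≤ 1 / ((j : ℝ) * ((j : ℝ) + 1)) * ((j : ℝ) * ((j : ℝ) + 1) / chi j * (1 - chi j / α)) := by
          apply mul_le_mul_of_nonneg_left _ (by positivity)
          linarith
      _ = _ := hfin
  · have h0 : ∑ i ∈ Icc 1 n, F j α i = 0 := by
      rw [← Finset.sum_filter_ne_zero]
      rw [Finset.not_nonempty_iff_eq_empty.mp hemp]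
      simp
    rw [h0, sub_nonneg]
    exact one_div_le_one_div_of_le hcj hjα.le

theorem key_large {j : ℕ} (hj : 30 ≤ j) : Key j := by
  intro α n hα
  have h1 : (chi j : ℝ) < (α : ℝ) := by exact_mod_cast hα
  rcases le_or_gt (10 * (α : ℝ)) (11 * chi j) with h | h
  · exact case1 hj h1 h
  · rcases le_or_gt (α : ℝ) (28 / 15 * ((j : ℝ) + 1) * chi j) with h' | h'
    · exact case2 hj h h'
    · exact case3 hj h'

end Pool.Agent.Helper890
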