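import Mathlib
import Pool.Agent.Helper890.ChiLarge

namespace Pool.Agent.Helper890

open Finset

def mx (a b : ℕ) : ℕ := bif Nat.ble a b then b else a
def mn (a b : ℕ) : ℕ := bif Nat.ble a b then a else b

lemma mx_eq (a b : ℕ) : mx a b = max a b := by
  unfold mx
  rcases h : Nat.ble a b with _ | _
  · have : ¬ a ≤ b := by rw [← Nat.ble_eq, h]; simp
    simp only [cond_false]; omega
  · have : a ≤ b := by rw [← Nat.ble_eq, h]
    simp only [cond_true]; omega

lemma mn_eq (a b : ℕ) : mn a b = min a b := by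
  unfold mn
  rcases h : Nat.ble a b with _ | _
  · have : ¬ a ≤ b := by rw [← Nat.ble_eq, h]; simp
    simp only [cond_false]; omega
  · have : a ≤ b := by rw [← Nat.ble_eq, h]
    simp only [cond_true]; omega

/-- integer upper bound (scaled by `10^12/16`) for the mass -/
def gterm (c c' x x' j A B i : ℕ) : ℕ :=
  (fun u l => bif Nat.ble u l then 0 else 1000000000000 / l + 1 - 1000000000000 / u)
    (mn (c * i) (16 * (j + 1) * (i - x)))
    (mx (mx (16 * A) (16 * (j + 1) * (i - B))) (mn (c' * i) (16 * j * (i - x'))))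

def sumB (f : ℕ → ℕ) : ℕ → ℕ → ℕ
  | 0, a => f a
  | k + 1, a => sumB f k a + sumB f k (a + 2 ^ k)

def sumM (f : ℕ → ℕ) : ℕ → ℕ
  | 0 => 0
  | m + 1 => sumM f m + sumB f 8 (256 * m)

lemma sumB_eq (f : ℕ → ℕ) : ∀ k a, sumB f k a = ∑ i ∈ Ico a (a + 2 ^ k), f i := by
  intro k
  induction k with
  | zero => intro a; simp [sumB]
  | succ k ih =>
    intro a
    rw [sumB, ih, ih]
    rw [show a + 2 ^ (k + 1) = a + 2 ^ k + 2 ^ k by ring]
    rw [Finset.sum_Ico_consecutive]
    · exact Nat.le_add_right _ _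
    · exact Nat.le_add_right _ _

lemma sumM_eq (f : ℕ → ℕ) : ∀ m, sumM f m = ∑ i ∈ Ico 0 (256 * m), f i := by
  intro m
  induction m with
  | zero => simp [sumM]
  | succ m ih =>
    rw [sumM, ih, sumB_eq]
    rw [show 256 * (m + 1) = 256 * m + 2 ^ 8 by ring]
    rw [Finset.sum_Ico_consecutive]
    · omega
    · omega

def X' (j : ℕ) : ℕ := if j = 1 then 0 else T (j - 1)

def blocks (j B : ℕ) : ℕ := 16 * (j + 1) * B / ((16 * (j + 1) - c16 j) * 256) + 1

def chkOne (j A B : ℕ) : Bool :=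
  Nat.ble (sumM (gterm (c16 j) (c16 (j - 1)) (T j) (X' j) j A B) (blocks j B) * (16 * T j * A))
    (1000000000000 * (A - T j)) &&
  Nat.ble (16 * (j + 1) * B + 1) (256 * blocks j B * (16 * (j + 1) - c16 j)) &&
  Nat.ble (T j + 1) A && Nat.ble (c16 j) (16 * (j + 1))

lemma c16_cast_pos (j : ℕ) : 0 < c16 j := by
  unfold c16; split_ifs <;> omega

lemma T_pos {j : ℕ} (h1 : 1 ≤ j) (h2 : j ≤ 29) : (0 : ℝ) < (T j : ℝ) := by
  have h := chi_pos (i := j) h1
  rw [chi_tab j h1 (by omega)] at h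
  exact_mod_cast h

lemma chi_T {j : ℕ} (h1 : 1 ≤ j) (h2 : j ≤ 29) : (chi j : ℝ) = (T j : ℝ) := by
  rw [chi_tab j h1 (by omega)]; norm_cast

lemma W_small {j : ℕ} (h1 : 1 ≤ j) (h2 : j ≤ 29) (i : ℕ) :
    W j i = min ((c16 j : ℝ) / 16 * i) (((j : ℝ) + 1) * ((i : ℝ) - T j)) := by
  unfold W
  rw [if_neg (by omega), if_pos h2, chi_T h1 h2]

lemma W_prev_small {j : ℕ} (h1 : 1 ≤ j) (h2 : j ≤ 29) (i : ℕ) :
    W (j - 1) i = min ((c16 (j - 1) : ℝ) / 16 * i) ((j : ℝ) * ((i : ℝ) - X' j)) := by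
  rcases Nat.lt_or_ge j 2 with h | h
  · have : j = 1 := by omega
    subst this
    have e1 : c16 (1 - 1) = 16 := by decide
    have e2 : X' 1 = 0 := by decide
    rw [e1, e2]
    unfold W
    norm_num
  · have e2 : X' j = T (j - 1) := by unfold X'; rw [if_neg (by omega)]
    rw [W_small (by omega) (by omega), e2]
    have : ((j - 1 : ℕ) : ℝ) = (j : ℝ) - 1 := by rw [Nat.cast_sub (by omega)]; simp
    rw [this, sub_add_cancel]

lemma sub_cast_le (a b : ℕ) : ((a - b : ℕ) : ℝ) = max ((a : ℝ) - b) 0 := by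
  rcases le_total b a with h | h
  · rw [Nat.cast_sub h]
    have : (b : ℝ) ≤ a := by exact_mod_cast h
    rw [max_eq_left]; linarith
  · rw [Nat.sub_eq_zero_of_le h]
    have : (a : ℝ) ≤ b := by exact_mod_cast h
    rw [max_eq_right] <;> simp; linarith

lemma gterm_spec {j A B i : ℕ} {α : ℝ} (h1 : 1 ≤ j) (h2 : j ≤ 29) (hA : 1 ≤ A)
    (hA' : (A : ℝ) ≤ α) (hB : α ≤ (B : ℝ)) (hne : F j α i ≠ 0) :
    F j α i ≤ 16 / 1000000000000 *
      (gterm (c16 j) (c16 (j - 1)) (T j) (X' j) j A B i : ℝ) := by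
  have hlt := F_pos_imp hne
  have hFe : F j α i = 1 / lo j α i - 1 / W j i := by unfold F; rw [if_pos hlt]
  have ha := lo_ge_alpha j α i
  have hl := lo_ge_line j α i
  have hw := lo_ge_W j α i
  have hA1 : (1 : ℝ) ≤ A := by exact_mod_cast hA
  have hlo0 : 0 < lo j α i := by linarith
  have hW0 : 0 < W j i := by linarith
  have hj1 : (0 : ℝ) < (j : ℝ) + 1 := by positivity
  -- i > T j
  have hWl : W j i ≤ ((j : ℝ) + 1) * ((i : ℝ) - T j) := by
    rw [W_small h1 h2]; exact min_le_right _ _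
  have hiT : (T j : ℝ) < i := by
    have : 0 < ((j : ℝ) + 1) * ((i : ℝ) - T j) := by linarith
    have := (mul_pos_iff_of_pos_left hj1).mp this
    linarith
  have hiT' : T j ≤ i := by
    have : T j < i := by exact_mod_cast hiT
    omega
  set u : ℕ := mn (c16 j * i) (16 * (j + 1) * (i - T j)) with hu
  set l : ℕ := mx (mx (16 * A) (16 * (j + 1) * (i - B))) (mn (c16 (j - 1) * i) (16 * j * (i - X' j))) with hl'
  have hureal : (u : ℝ) = 16 * W j i := by
    rw [hu, mn_eq, W_small h1 h2]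
    push_cast [Nat.cast_sub hiT']
    rw [mul_min_of_nonneg _ _ (by norm_num : (0 : ℝ) ≤ 16)]
    congr 1 <;> ring
  have hlreal : (l : ℝ) ≤ 16 * lo j α i := by
    rw [hl', mx_eq, mx_eq, mn_eq]
    push_cast
    apply max_le
    · apply max_le
      · linarith
      · rw [sub_cast_le i B]
        rcases le_total ((i : ℝ) - B) 0 with h | h
        · rw [max_eq_right h]; linarith
        · rw [max_eq_left h]
          have : ((j : ℝ) + 1) * ((i : ℝ) - B) ≤ ((j : ℝ) + 1) * ((i : ℝ) - α) := by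
            apply mul_le_mul_of_nonneg_left _ hj1.le; linarith
          linarith
    · rw [sub_cast_le i (X' j)]
      rw [W_prev_small h1 h2] at hw
      rcases le_total ((i : ℝ) - X' j) 0 with h | h
      · rw [max_eq_right h]
        refine (min_le_right _ _).trans ?_
        linarith
      · rw [max_eq_left h]
        have : min ((c16 (j - 1) : ℝ) * i) (16 * (j : ℝ) * ((i : ℝ) - X' j)) =
            16 * min ((c16 (j - 1) : ℝ) / 16 * i) ((j : ℝ) * ((i : ℝ) - X' j)) := by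
          rw [mul_min_of_nonneg _ _ (by norm_num : (0 : ℝ) ≤ 16)]
          congr 1 <;> ring
        rw [this]
        linarith
  have hlpos : 0 < l := by
    rw [hl', mx_eq, mx_eq]
    have : 16 * A ≤ max (max (16 * A) (16 * (j + 1) * (i - B))) (mn (c16 (j - 1) * i) (16 * j * (i - X' j))) :=
      (le_max_left _ _).trans (le_max_left _ _)
    omega
  have hlposR : (0 : ℝ) < l := by exact_mod_cast hlpos
  have hul : l < u := by
    have : (l : ℝ) < u := by rw [hureal]; linarith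
    exact_mod_cast this
  have hg : gterm (c16 j) (c16 (j - 1)) (T j) (X' j) j A B i =
      1000000000000 / l + 1 - 1000000000000 / u := by
    unfold gterm
    simp only [← hu, ← hl']
    have : Nat.ble u l = false := by
      rw [← Bool.not_eq_true, Nat.ble_eq]; omega
    rw [this]; rfl
  rw [hg]
  have hdiv : 1000000000000 / u ≤ 1000000000000 / l + 1 := by
    have h9 : 1000000000000 / u ≤ 1000000000000 / l := Nat.div_le_div_left hul.le hlpos
    exact h9.trans (Nat.le_succ _)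
  rw [Nat.cast_sub hdiv]
  push_cast
  have d1 : (1000000000000 : ℝ) / l ≤ ((1000000000000 / l : ℕ) : ℝ) + 1 := by
    rw [div_le_iff₀ hlposR]
    have := Nat.div_add_mod 1000000000000 l
    have h3 := Nat.mod_lt 1000000000000 hlpos
    have h4 : 1000000000000 ≤ (1000000000000 / l + 1) * l := by nlinarith
    exact_mod_cast h4
  have hupos : 0 < u := by omega
  have huposR : (0 : ℝ) < u := by exact_mod_cast hupos
  have d2 : ((1000000000000 / u : ℕ) : ℝ) ≤ (1000000000000 : ℝ) / u := by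
    rw [le_div_iff₀ huposR]
    have h4 : 1000000000000 / u * u ≤ 1000000000000 := Nat.div_mul_le_self _ _
    exact_mod_cast h4
  have e1 : 1 / lo j α i ≤ 16 / (l : ℝ) := by
    rw [div_le_div_iff₀ hlo0 hlposR]; linarith
  have e2 : 1 / W j i = 16 / (u : ℝ) := by
    rw [hureal]; field_simp
  rw [hFe, e2]
  have e3 : (16 : ℝ) / l - 16 / u = 16 / 1000000000000 * (1000000000000 / (l : ℝ) - 1000000000000 / (u : ℝ)) := by
    field_simp
  calc 1 / lo j α i - 16 / (u : ℝ) ≤ 16 / l - 16 / u := by linarith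
    _ = 16 / 1000000000000 * (1000000000000 / (l : ℝ) - 1000000000000 / (u : ℝ)) := e3
    _ ≤ _ := by
      apply mul_le_mul_of_nonneg_left _ (by norm_num)
      linarith

lemma chkOne_spec {j A B : ℕ} {α : ℝ} (n : ℕ) (h1 : 1 ≤ j) (h2 : j ≤ 29) (hc : chkOne j A B = true)
    (hA' : (A : ℝ) ≤ α) (hB : α ≤ (B : ℝ)) :
    ∑ i ∈ Icc 1 n, F j α i ≤ 1 / (chi j : ℝ) - 1 / α := by
  unfold chkOne at hc
  simp only [Bool.and_eq_true, Nat.ble_eq] at hc
  obtain ⟨⟨⟨c1, c2⟩, c3⟩, c4⟩ := hc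
  have hTpos := T_pos h1 h2
  have hTpos' : 0 < T j := by exact_mod_cast hTpos
  have hA : 1 ≤ A := by omega
  have hA1 : (1 : ℝ) ≤ A := by exact_mod_cast hA
  rw [sumM_eq] at c1
  set g : ℕ → ℕ := gterm (c16 j) (c16 (j - 1)) (T j) (X' j) j A B with hg
  set S : ℕ := ∑ i ∈ Ico 0 (256 * blocks j B), g i with hS
  have hle : ∑ i ∈ Icc 1 n, F j α i ≤
      ∑ i ∈ Ico 0 (256 * blocks j B), 16 / 1000000000000 * (g i : ℝ) := by
    apply sum_le_of_support
    · intro i _ hne
      refine ⟨?_, gterm_spec h1 h2 hA hA' hB hne⟩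
      rw [mem_Ico]
      refine ⟨by omega, ?_⟩
      have hlt := F_pos_imp hne
      have hl := lo_ge_line j α i
      have hWc : W j i ≤ (c16 j : ℝ) / 16 * i := by rw [W_small h1 h2]; exact min_le_left _ _
      have h3 : ((j : ℝ) + 1) * ((i : ℝ) - B) < (c16 j : ℝ) / 16 * i := by
        have : ((j : ℝ) + 1) * ((i : ℝ) - B) ≤ ((j : ℝ) + 1) * ((i : ℝ) - α) := by
          apply mul_le_mul_of_nonneg_left _ (by positivity); linarith
        linarith
      have h4 : (i : ℝ) * (16 * ((j : ℝ) + 1) - c16 j) < 16 * ((j : ℝ) + 1) * B := by linarith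
      have h5 : ((i * (16 * (j + 1) - c16 j) : ℕ) : ℝ) < ((16 * (j + 1) * B : ℕ) : ℝ) := by
        push_cast [Nat.cast_sub c4]; linarith
      have h6 : i * (16 * (j + 1) - c16 j) < 16 * (j + 1) * B := by exact_mod_cast h5
      have h7 : i * (16 * (j + 1) - c16 j) < 256 * blocks j B * (16 * (j + 1) - c16 j) :=
        lt_of_lt_of_le (h6.trans (Nat.lt_succ_self _)) c2
      exact lt_of_mul_lt_mul_right h7 (Nat.zero_le _)
    · intro i _
      exact mul_nonneg (by norm_num) (Nat.cast_nonneg _)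
  rw [← Finset.mul_sum] at hle
  have hScast : ∑ i ∈ Ico 0 (256 * blocks j B), (g i : ℝ) = (S : ℝ) := by rw [hS]; push_cast; rfl
  rw [hScast] at hle
  have hr : ((S * (16 * T j * A) : ℕ) : ℝ) ≤ ((1000000000000 * (A - T j) : ℕ) : ℝ) := by exact_mod_cast c1
  push_cast [Nat.cast_sub (show T j ≤ A by omega)] at hr
  rw [chi_T h1 h2]
  have hα : 0 < α := by linarith
  have k1 : 16 / 1000000000000 * (S : ℝ) ≤ 1 / (T j : ℝ) - 1 / (A : ℝ) := by
    have hAp : (0 : ℝ) < A := by linarith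
    rw [div_sub_div _ _ hTpos.ne' hAp.ne', le_div_iff₀ (by positivity)]
    linarith
  have k2 : 1 / α ≤ 1 / (A : ℝ) := one_div_le_one_div_of_le (by linarith) hA'
  linarith

def chkList (j : ℕ) : ℕ → List ℕ → Bool
  | _, [] => true
  | A, B :: l => chkOne j A B && chkList j (B + 1) l

def endOf : ℕ → List ℕ → ℕ
  | A, [] => A
  | _, B :: l => endOf (B + 1) l

lemma chkList_spec {j : ℕ} (n : ℕ) (h1 : 1 ≤ j) (h2 : j ≤ 29) :
    ∀ (l : List ℕ) (A : ℕ), chkList j A l = true → ∀ α : ℕ, A ≤ α → α < endOf A l →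
    ∑ i ∈ Icc 1 n, F j (α : ℝ) i ≤ 1 / (chi j : ℝ) - 1 / (α : ℝ) := by
  intro l
  induction l with
  | nil => intro A _ α h3 h4; unfold endOf at h4; omega
  | cons B l ih =>
    intro A hc α h3 h4
    rw [chkList, Bool.and_eq_true] at hc
    rcases Nat.lt_or_ge B α with h5 | h5
    · exact ih (B + 1) hc.2 α (by omega) (by unfold endOf at h4; exact h4)
    · exact chkOne_spec n h1 h2 hc.1 (by exact_mod_cast h3) (by exact_mod_cast h5)

end Pool.Agent.Helper890
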