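import Mathlib
import Pool.Agent.Helper890.ChiSmall
import Pool.Agent.Helper890.ChiCase2

namespace Pool.Agent.Helper890

open Finset

/-- harmonic sum over integers in an open interval -/
lemma harm_sum (n : ℕ) {x y : ℝ} (hx : 0 < x) (hxy : x < y) :
    ∑ i ∈ (Icc 1 n).filter (fun i : ℕ => x < (i : ℝ) ∧ (i : ℝ) < y), 1 / (i : ℝ) ≤
      1 / x + (Real.log y - Real.log x) := by
  set s : ℕ := ⌊x⌋₊ + 1 with hs
  set e : ℕ := ⌊y⌋₊ with he
  have hxs : x < (s : ℝ) := by rw [hs]; push_cast; exact Nat.lt_floor_add_one x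
  have hs1 : 1 ≤ s := by omega
  have hpos : 0 ≤ Real.log y - Real.log x := by
    have := Real.log_le_log hx hxy.le; linarith
  have hsub : (Icc 1 n).filter (fun i : ℕ => x < (i : ℝ) ∧ (i : ℝ) < y) ⊆ Icc s e := by
    intro i hi
    rw [mem_filter] at hi
    rw [mem_Icc]
    constructor
    · have := (Nat.floor_lt hx.le).mpr hi.2.1
      omega
    · exact Nat.le_floor hi.2.2.le
  have h1 : ∑ i ∈ (Icc 1 n).filter (fun i : ℕ => x < (i : ℝ) ∧ (i : ℝ) < y), 1 / (i : ℝ) ≤
      ∑ i ∈ Icc s e, 1 / (i : ℝ) := by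
    apply Finset.sum_le_sum_of_subset_of_nonneg hsub
    intro i _ _; positivity
  rcases Nat.lt_or_ge e s with h | h
  · rw [Finset.Icc_eq_empty (show ¬ s ≤ e by omega), Finset.sum_empty] at h1
    have : 0 < 1 / x := by positivity
    linarith
  · have h2 : ∑ i ∈ Icc s e, 1 / (i : ℝ) = 1 / (s : ℝ) + ∑ i ∈ Ioc s e, 1 / (i : ℝ) := by
      rw [← Finset.Icc_erase_left]
      exact (Finset.add_sum_erase _ (fun i : ℕ => 1 / (i : ℝ)) (Finset.left_mem_Icc.mpr h)).symm
    have h3 : ∑ i ∈ Ioc s e, 1 / (i : ℝ) ≤ - Real.log (s : ℝ) - - Real.log (e : ℝ) := by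
      apply sum_Ioc_tele (f := fun k : ℕ => - Real.log (k : ℝ)) h
      intro i hi1 hi2
      have hi0 : (1 : ℝ) < i := by exact_mod_cast (by omega : 1 < i)
      have hcast : ((i - 1 : ℕ) : ℝ) = (i : ℝ) - 1 := by rw [Nat.cast_sub (by omega)]; simp
      rw [hcast]
      have h4 := Real.one_sub_inv_le_log_of_pos (x := (i : ℝ) / ((i : ℝ) - 1)) (by apply div_pos <;> linarith)
      rw [Real.log_div (by linarith) (by linarith), inv_div] at h4
      have : 1 - ((i : ℝ) - 1) / i = 1 / i := by field_simp; ring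
      linarith
    have hspos : (0 : ℝ) < s := by linarith
    have h5 : 1 / (s : ℝ) ≤ 1 / x := one_div_le_one_div_of_le hx hxs.le
    have h6 : Real.log x ≤ Real.log s := Real.log_le_log hx hxs.le
    have hey : (e : ℝ) ≤ y := Nat.floor_le (by linarith)
    have hepos : (0 : ℝ) < e := by
      have : (s : ℝ) ≤ e := by exact_mod_cast h
      linarith
    have h7 : Real.log e ≤ Real.log y := Real.log_le_log hepos hey
    linarith

/-- one piece -/
lemma piece_bound (n : ℕ) {j : ℕ} {α w w' : ℝ} (hα : 0 < α) (hw : 0 < w) (hww : w < w')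
    (hj : w' < (j : ℝ) + 1) (hw1 : 1 ≤ w') :
    ∑ i ∈ Icc 1 n, (1 / max (max α (((j : ℝ) + 1) * ((i : ℝ) - α))) (w * i) -
      1 / max (max α (((j : ℝ) + 1) * ((i : ℝ) - α))) (w' * i)) ≤
    (1 / w - 1 / w') * (w' / α + Real.log (w' * ((j : ℝ) + 1) / ((j : ℝ) + 1 - w'))) := by
  have hw' : 0 < w' := by linarith
  have hj1 : 0 < (j : ℝ) + 1 - w' := by linarith
  have hj2 : 0 < (j : ℝ) + 1 := by positivity
  have hww' : 0 ≤ 1 / w - 1 / w' := by
    rw [sub_nonneg]; exact one_div_le_one_div_of_le hw hww.le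
  have hx : 0 < α / w' := by positivity
  have hxy : α / w' < ((j : ℝ) + 1) * α / ((j : ℝ) + 1 - w') := by
    rw [div_lt_div_iff₀ hw' hj1]
    have k1 : ((j : ℝ) + 1) * α * 1 ≤ ((j : ℝ) + 1) * α * w' :=
      mul_le_mul_of_nonneg_left hw1 (by positivity)
    have k2 : 0 < α * w' := by positivity
    linarith
  have hh := harm_sum n hx hxy
  have hlog : Real.log (((j : ℝ) + 1) * α / ((j : ℝ) + 1 - w')) - Real.log (α / w') =
      Real.log (w' * ((j : ℝ) + 1) / ((j : ℝ) + 1 - w')) := by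
    rw [← Real.log_div (by positivity) (by positivity)]
    congr 1
    field_simp
  have hinv : 1 / (α / w') = w' / α := by field_simp
  rw [hlog, hinv] at hh
  refine le_trans ?_ (mul_le_mul_of_nonneg_left hh hww')
  rw [Finset.mul_sum]
  apply sum_le_of_support
  · intro i hi hne
    rw [mem_Icc] at hi
    have hi0 : (0 : ℝ) < i := by exact_mod_cast (by omega : 0 < i)
    set L := max α (((j : ℝ) + 1) * ((i : ℝ) - α)) with hL
    have hLα : α ≤ L := le_max_left _ _
    have hLl : ((j : ℝ) + 1) * ((i : ℝ) - α) ≤ L := le_max_right _ _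
    have hwi : w * i < w' * i := mul_lt_mul_of_pos_right hww hi0
    rcases le_or_gt (w' * i) L with h | h
    · exfalso
      apply hne
      rw [max_eq_left h, max_eq_left (hwi.le.trans h)]; ring
    · refine ⟨?_, ?_⟩
      · rw [mem_filter, mem_Icc]
        refine ⟨hi, ?_, ?_⟩
        · rw [div_lt_iff₀ hw']; linarith
        · rw [lt_div_iff₀ hj1]; linarith
      · rw [max_eq_right h.le]
        have h1 : 1 / max L (w * i) ≤ 1 / (w * i) :=
          one_div_le_one_div_of_le (by positivity) (le_max_right _ _)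
        have h2 : (1 / w - 1 / w') * (1 / (i : ℝ)) = 1 / (w * i) - 1 / (w' * i) := by
          field_simp
        rw [h2]; linarith
  · intro i _
    exact mul_nonneg hww' (by positivity)

def pieceQ (j : ℕ) (a1 : ℚ) : ℕ → List (ℕ × ℕ) → ℚ
  | _, [] => 0
  | a, (b, k) :: l => (16 / (a : ℚ) - 16 / b) * (b / (16 * a1) + (k * (693148 / 1000000) +
      (b * ((j : ℚ) + 1) / (16 * ((j : ℚ) + 1) - b)) / 2 ^ k - 1)) + pieceQ j a1 b l

def chain (c top : ℕ) : ℕ → List (ℕ × ℕ) → Bool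
  | a, [] => Nat.beq a c
  | a, (b, _) :: l => Nat.ble 16 a && Nat.ble (a + 1) b && Nat.ble (b + 1) top && chain c top b l

lemma pieces_bound (n : ℕ) {j : ℕ} {α : ℝ} {a1 : ℚ} (ha1 : 0 < a1) (hα : (a1 : ℝ) ≤ α) (c : ℕ) :
    ∀ (l : List (ℕ × ℕ)) (a : ℕ), chain c (16 * (j + 1)) a l = true →
    ∑ i ∈ Icc 1 n, (1 / max (max α (((j : ℝ) + 1) * ((i : ℝ) - α))) ((a : ℝ) / 16 * i) -
      1 / max (max α (((j : ℝ) + 1) * ((i : ℝ) - α))) ((c : ℝ) / 16 * i)) ≤
    ((pieceQ j a1 a l : ℚ) : ℝ) := by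
  intro l
  have ha1' : (0 : ℝ) < (a1 : ℝ) := by exact_mod_cast ha1
  have hα0 : 0 < α := by linarith
  induction l with
  | nil =>
    intro a h
    unfold chain at h
    rw [Nat.beq_eq] at h
    subst h
    simp [pieceQ]
  | cons bk l ih =>
    obtain ⟨b, k⟩ := bk
    intro a h
    unfold chain at h
    simp only [Bool.and_eq_true, Nat.ble_eq] at h
    obtain ⟨⟨⟨h1, h2⟩, h3⟩, h4⟩ := h
    have ih' := ih b h4
    have ha : (0 : ℝ) < a := by exact_mod_cast (by omega : 0 < a)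
    have hb : (0 : ℝ) < b := by exact_mod_cast (by omega : 0 < b)
    have hab : (a : ℝ) < b := by exact_mod_cast (by omega : a < b)
    have hbt : (b : ℝ) < 16 * ((j : ℝ) + 1) := by
      have : ((b + 1 : ℕ) : ℝ) ≤ ((16 * (j + 1) : ℕ) : ℝ) := by exact_mod_cast h3
      push_cast at this; linarith
    have hp := piece_bound n (j := j) (α := α) (w := (a : ℝ) / 16) (w' := (b : ℝ) / 16) hα0
      (by positivity) (by linarith) (by linarith) (by
        have : (16 : ℝ) ≤ a := by exact_mod_cast h1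
        linarith)
    have hsplit : ∑ i ∈ Icc 1 n, (1 / max (max α (((j : ℝ) + 1) * ((i : ℝ) - α))) ((a : ℝ) / 16 * i) -
      1 / max (max α (((j : ℝ) + 1) * ((i : ℝ) - α))) ((c : ℝ) / 16 * i)) =
      ∑ i ∈ Icc 1 n, (1 / max (max α (((j : ℝ) + 1) * ((i : ℝ) - α))) ((a : ℝ) / 16 * i) -
      1 / max (max α (((j : ℝ) + 1) * ((i : ℝ) - α))) ((b : ℝ) / 16 * i)) +
      ∑ i ∈ Icc 1 n, (1 / max (max α (((j : ℝ) + 1) * ((i : ℝ) - α))) ((b : ℝ) / 16 * i) -
      1 / max (max α (((j : ℝ) + 1) * ((i : ℝ) - α))) ((c : ℝ) / 16 * i)) := by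
      rw [← Finset.sum_add_distrib]
      apply Finset.sum_congr rfl
      intro i _; ring
    rw [hsplit]
    have hr : 0 < (b : ℝ) * ((j : ℝ) + 1) / (16 * ((j : ℝ) + 1) - b) := by
      apply div_pos (by positivity); linarith
    have hlog := log_le_pow _ hr k
    have e1 : (b : ℝ) / 16 * ((j : ℝ) + 1) / ((j : ℝ) + 1 - (b : ℝ) / 16) =
        (b : ℝ) * ((j : ℝ) + 1) / (16 * ((j : ℝ) + 1) - b) := by
      have : (j : ℝ) + 1 - (b : ℝ) / 16 ≠ 0 := by
        have : 0 < (j : ℝ) + 1 - (b : ℝ) / 16 := by linarith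
        exact this.ne'
      have : 16 * ((j : ℝ) + 1) - b ≠ 0 := by
        have : 0 < 16 * ((j : ℝ) + 1) - b := by linarith
        exact this.ne'
      field_simp
    rw [e1] at hp
    have hnn : 0 ≤ 1 / ((a : ℝ) / 16) - 1 / ((b : ℝ) / 16) := by
      rw [sub_nonneg]; apply one_div_le_one_div_of_le <;> linarith
    have hba : (b : ℝ) / 16 / α ≤ (b : ℝ) / (16 * a1) := by
      rw [div_div]
      apply div_le_div_of_nonneg_left hb.le (by positivity)
      linarith
    have hfin : (1 / ((a : ℝ) / 16) - 1 / ((b : ℝ) / 16)) * ((b : ℝ) / 16 / α +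
        Real.log ((b : ℝ) * ((j : ℝ) + 1) / (16 * ((j : ℝ) + 1) - b))) ≤
        (16 / (a : ℝ) - 16 / b) * ((b : ℝ) / (16 * a1) + (k * (693148 / 1000000) +
      (b * ((j : ℝ) + 1) / (16 * ((j : ℝ) + 1) - b)) / 2 ^ k - 1)) := by
      have e2 : 1 / ((a : ℝ) / 16) - 1 / ((b : ℝ) / 16) = 16 / (a : ℝ) - 16 / b := by
        field_simp
      rw [e2] at hnn ⊢
      apply mul_le_mul_of_nonneg_left _ hnn
      norm_num at hlog ⊢
      linarith
    rw [pieceQ]
    push_cast
    linarith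

def chkAsym (j a1 : ℕ) (l : List (ℕ × ℕ)) : Bool :=
  decide (pieceQ j (a1 : ℚ) (c16 (j - 1)) l ≤ 1 / (T j : ℚ) - 1 / (a1 : ℚ)) &&
  chain (c16 j) (16 * (j + 1)) (c16 (j - 1)) l &&
  Nat.ble (c16 (j - 1) * (j * X' j)) (a1 * (16 * j - c16 (j - 1))) && Nat.ble 1 a1 &&
  Nat.ble (c16 (j - 1)) (16 * j)

lemma chkAsym_spec {j a1 : ℕ} {l : List (ℕ × ℕ)} {α : ℝ} (n : ℕ) (h1 : 1 ≤ j) (h2 : j ≤ 29)
    (hc : chkAsym j a1 l = true) (hα : (a1 : ℝ) ≤ α) :
    ∑ i ∈ Icc 1 n, F j α i ≤ 1 / (chi j : ℝ) - 1 / α := by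
  unfold chkAsym at hc
  simp only [Bool.and_eq_true, Nat.ble_eq, decide_eq_true_eq] at hc
  obtain ⟨⟨⟨⟨c1, c2⟩, c3⟩, c4⟩, c5⟩ := hc
  have ha1 : (1 : ℝ) ≤ a1 := by exact_mod_cast c4
  have hα0 : 0 < α := by linarith
  have hp := pieces_bound n (j := j) (α := α) (a1 := (a1 : ℚ)) (by exact_mod_cast (by omega : 0 < a1))
    (by push_cast; exact hα) (c16 j) l (c16 (j - 1)) c2
  have hle : ∑ i ∈ Icc 1 n, F j α i ≤
    ∑ i ∈ Icc 1 n, (1 / max (max α (((j : ℝ) + 1) * ((i : ℝ) - α))) ((c16 (j - 1) : ℝ) / 16 * i) -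
      1 / max (max α (((j : ℝ) + 1) * ((i : ℝ) - α))) ((c16 j : ℝ) / 16 * i)) := by
    apply sum_le_of_support
    · intro i hi hne
      refine ⟨hi, ?_⟩
      rw [mem_Icc] at hi
      have hi0 : (0 : ℝ) < i := by exact_mod_cast (by omega : 0 < i)
      have hlt := F_pos_imp hne
      have hFe : F j α i = 1 / lo j α i - 1 / W j i := by unfold F; rw [if_pos hlt]
      have ha := lo_ge_alpha j α i
      have hl := lo_ge_line j α i
      have hw := lo_ge_W j α i
      have hlo0 : 0 < lo j α i := by linarith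
      have hW0 : 0 < W j i := by linarith
      have hWc : W j i ≤ (c16 j : ℝ) / 16 * i := by rw [W_small h1 h2]; exact min_le_left _ _
      -- lo ≥ c' i / 16
      have hloc : (c16 (j - 1) : ℝ) / 16 * i ≤ lo j α i := by
        rw [W_prev_small h1 h2] at hw
        rcases le_total ((c16 (j - 1) : ℝ) / 16 * i) ((j : ℝ) * ((i : ℝ) - X' j)) with h | h
        · rw [min_eq_left h] at hw; exact hw
        · -- (c'/16) i ≤ α
          have k3 : ((c16 (j - 1) * (j * X' j) : ℕ) : ℝ) ≤ ((a1 * (16 * j - c16 (j - 1)) : ℕ) : ℝ) := by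
            exact_mod_cast c3
          push_cast [Nat.cast_sub c5] at k3
          have k4 : (c16 (j - 1) : ℝ) ≤ 16 * j := by exact_mod_cast c5
          have k5 : (0 : ℝ) < c16 (j - 1) := by exact_mod_cast c16_cast_pos (j - 1)
          rcases eq_or_lt_of_le k4 with k6 | k6
          · -- equality: then c' = 16 j
            have h' : (j : ℝ) * i ≤ (j : ℝ) * ((i : ℝ) - X' j) + ((c16 (j - 1) : ℝ) / 16 * i - (c16 (j - 1) : ℝ) / 16 * i) + (j : ℝ) * X' j := by
              ring_nf; exact le_rfl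
            have hX0 : (j : ℝ) * (X' j : ℝ) ≤ 0 := by
              rw [k6] at k3
              have : (16 : ℝ) * j * ((j : ℝ) * X' j) ≤ 0 := by linarith
              have hj0 : (0 : ℝ) < 16 * j := by
                have : (1 : ℝ) ≤ j := by exact_mod_cast h1
                linarith
              by_contra hcon
              push Not at hcon
              have := mul_pos hj0 hcon
              linarith
            have : (j : ℝ) * ((i : ℝ) - X' j) = (j : ℝ) * i - (j : ℝ) * X' j := by ring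
            rw [min_eq_right h] at hw
            rw [this] at hw
            have e : (c16 (j - 1) : ℝ) / 16 * i = (j : ℝ) * i := by rw [k6]; ring
            rw [e]; linarith
          · have k7 : (i : ℝ) * (16 * j - c16 (j - 1)) ≤ 16 * (j : ℝ) * X' j := by linarith
            have k8 : (c16 (j - 1) : ℝ) * i * (16 * j - c16 (j - 1)) ≤ 16 * a1 * (16 * j - c16 (j - 1)) := by
              calc (c16 (j - 1) : ℝ) * i * (16 * j - c16 (j - 1))
                  = (c16 (j - 1) : ℝ) * ((i : ℝ) * (16 * j - c16 (j - 1))) := by ring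
                _ ≤ (c16 (j - 1) : ℝ) * (16 * (j : ℝ) * X' j) := mul_le_mul_of_nonneg_left k7 k5.le
                _ = 16 * ((c16 (j - 1) : ℝ) * ((j : ℝ) * X' j)) := by ring
                _ ≤ 16 * ((a1 : ℝ) * (16 * j - c16 (j - 1))) := by linarith
                _ = _ := by ring
            have k9 := le_of_mul_le_mul_right k8 (by linarith)
            linarith
      have hL : max (max α (((j : ℝ) + 1) * ((i : ℝ) - α))) ((c16 (j - 1) : ℝ) / 16 * i) ≤ lo j α i :=
        max_le (max_le ha hl) hloc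
      have hLpos : 0 < max (max α (((j : ℝ) + 1) * ((i : ℝ) - α))) ((c16 (j - 1) : ℝ) / 16 * i) :=
        lt_of_lt_of_le hα0 ((le_max_left _ _).trans (le_max_left _ _))
      rw [hFe]
      have e1 : 1 / lo j α i ≤ 1 / max (max α (((j : ℝ) + 1) * ((i : ℝ) - α))) ((c16 (j - 1) : ℝ) / 16 * i) :=
        one_div_le_one_div_of_le hLpos hL
      have e2 : 1 / max (max α (((j : ℝ) + 1) * ((i : ℝ) - α))) ((c16 j : ℝ) / 16 * i) ≤ 1 / W j i := by
        apply one_div_le_one_div_of_le hW0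
        exact hWc.trans (le_max_right _ _)
      linarith
    · intro i _
      -- nonneg: c' ≤ c
      rw [sub_nonneg]
      have hLpos : 0 < max (max α (((j : ℝ) + 1) * ((i : ℝ) - α))) ((c16 (j - 1) : ℝ) / 16 * i) :=
        lt_of_lt_of_le hα0 ((le_max_left _ _).trans (le_max_left _ _))
      apply one_div_le_one_div_of_le hLpos
      apply max_le_max le_rfl
      apply mul_le_mul_of_nonneg_right _ (by positivity)
      have : c16 (j - 1) ≤ c16 j := by
        unfold c16; split_ifs <;> omega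
      have : (c16 (j - 1) : ℝ) ≤ c16 j := by exact_mod_cast this
      linarith
  have hq : ((pieceQ j (a1 : ℚ) (c16 (j - 1)) l : ℚ) : ℝ) ≤ 1 / (T j : ℝ) - 1 / (a1 : ℝ) := by
    have : ((pieceQ j (a1 : ℚ) (c16 (j - 1)) l : ℚ) : ℝ) ≤ ((1 / (T j : ℚ) - 1 / (a1 : ℚ) : ℚ) : ℝ) := by
      exact_mod_cast c1
    push_cast at this
    exact this
  rw [chi_T h1 h2]
  have k2 : 1 / α ≤ 1 / (a1 : ℝ) := one_div_le_one_div_of_le (by linarith) hα
  linarith

end Pool.Agent.Helper890
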