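import Mathlib
import Pool.Agent.Helper890.ChiAsym

namespace Pool.Agent.Helper890

open Finset

/-- for each `j`: threshold for the asymptotic regime, grid endpoints, pieces -/
def gridData : ℕ → ℕ × List ℕ × List (ℕ × ℕ)
  | 1 => (13, [2, 4, 7, 11, 12], [(18, 1), (20, 2), (22, 2), (24, 3), (26, 3), (28, 4), (30, 5), (31, 6)])
  | 2 => (62, [3, 5, 9, 15, 24, 38, 60, 61], [(32, 3), (34, 3), (36, 3), (38, 4), (40, 4), (42, 4), (44, 5), (46, 6)])
  | 3 => (138, [6, 12, 30, 58, 100, 137], [(52, 4), (58, 5)])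
  | 4 => (155, [7, 11, 31, 111, 154], [(68, 5)])
  | 5 => (170, [11, 20, 66, 169], [(78, 5)])
  | 6 => (234, [14, 21, 54, 175, 233], [(88, 5)])
  | 7 => (308, [16, 20, 37, 118, 307], [(98, 5)])
  | 8 => (392, [19, 23, 40, 126, 378, 391], [(108, 5)])
  | 9 => (486, [22, 26, 43, 137, 470, 485], [(118, 5)])
  | 10 => (590, [25, 29, 47, 154, 589], [(128, 5)])
  | 11 => (704, [31, 44, 120, 564, 703], [(138, 5)])
  | 12 => (859, [34, 43, 91, 417, 858], [(148, 5)])
  | 13 => (1027, [38, 47, 95, 438, 1026], [(158, 5)])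
  | 14 => (1207, [42, 51, 99, 462, 1206], [(168, 5)])
  | 15 => (1400, [48, 62, 146, 796, 1399], [(178, 5)])
  | 16 => (1644, [53, 67, 149, 803, 1643], [(188, 5)])
  | 17 => (1903, [58, 72, 153, 821, 1902], [(198, 5)])
  | 18 => (2178, [63, 77, 158, 851, 2177], [(208, 5)])
  | 19 => (2470, [67, 77, 131, 581, 2469], [(218, 5)])
  | 20 => (2779, [72, 81, 130, 539, 2778], [(228, 5)])
  | 21 => (3104, [77, 86, 136, 564, 3103], [(238, 6)])
  | 22 => (3445, [82, 91, 141, 581, 3444], [(248, 6)])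
  | 23 => (3803, [87, 96, 147, 610, 3802], [(258, 6)])
  | 24 => (4178, [91, 96, 123, 324, 2802, 4177], [(268, 6)])
  | 25 => (4569, [100, 121, 267, 2141, 4568], [(278, 6)])
  | 26 => (5029, [105, 121, 225, 1489, 5028], [(288, 6)])
  | 27 => (5508, [111, 127, 231, 1517, 5507], [(298, 6)])
  | 28 => (6008, [117, 133, 238, 1562, 6007], [(308, 6)])
  | 29 => (6528, [123, 139, 244, 1594, 6527], [(318, 6)])
  | _ => (0, [], [])

def chkJ (j : ℕ) : Bool :=
  chkList j (T j + 1) (gridData j).2.1 &&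
  Nat.beq (endOf (T j + 1) (gridData j).2.1) (gridData j).1 &&
  chkAsym j (gridData j).1 (gridData j).2.2

lemma chkJ_spec {j : ℕ} (h1 : 1 ≤ j) (h2 : j ≤ 29) (hc : chkJ j = true) : Key j := by
  unfold chkJ at hc
  simp only [Bool.and_eq_true, Nat.beq_eq] at hc
  obtain ⟨⟨c1, c2⟩, c3⟩ := hc
  intro α n hα
  have hα0 : 0 < α := (chi_pos h1).trans hα
  obtain ⟨a, rfl⟩ : ∃ a : ℕ, α = (a : ℤ) := ⟨α.toNat, (Int.toNat_of_nonneg hα0.le).symm⟩
  rw [chi_tab j h1 (by omega)] at hα
  have hα' : T j < a := by exact_mod_cast hα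
  have hcast : (((a : ℕ) : ℤ) : ℝ) = (a : ℝ) := by norm_cast
  rw [hcast]
  rcases Nat.lt_or_ge a (gridData j).1 with h | h
  · exact chkList_spec n h1 h2 _ _ c1 a (by omega) (by rw [c2]; exact h)
  · exact chkAsym_spec n h1 h2 c3 (by exact_mod_cast h)

lemma chkJ_1 : chkJ 1 = true := by decide +kernel
lemma chkJ_2 : chkJ 2 = true := by decide +kernel
lemma chkJ_3 : chkJ 3 = true := by decide +kernel
lemma chkJ_4 : chkJ 4 = true := by decide +kernel
lemma chkJ_5 : chkJ 5 = true := by decide +kernel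
lemma chkJ_6 : chkJ 6 = true := by decide +kernel
lemma chkJ_7 : chkJ 7 = true := by decide +kernel
lemma chkJ_8 : chkJ 8 = true := by decide +kernel
lemma chkJ_9 : chkJ 9 = true := by decide +kernel
lemma chkJ_10 : chkJ 10 = true := by decide +kernel
lemma chkJ_11 : chkJ 11 = true := by decide +kernel
lemma chkJ_12 : chkJ 12 = true := by decide +kernel
lemma chkJ_13 : chkJ 13 = true := by decide +kernel
lemma chkJ_14 : chkJ 14 = true := by decide +kernel
lemma chkJ_15 : chkJ 15 = true := by decide +kernel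
lemma chkJ_16 : chkJ 16 = true := by decide +kernel
lemma chkJ_17 : chkJ 17 = true := by decide +kernel
lemma chkJ_18 : chkJ 18 = true := by decide +kernel
lemma chkJ_19 : chkJ 19 = true := by decide +kernel
lemma chkJ_20 : chkJ 20 = true := by decide +kernel
lemma chkJ_21 : chkJ 21 = true := by decide +kernel
lemma chkJ_22 : chkJ 22 = true := by decide +kernel
lemma chkJ_23 : chkJ 23 = true := by decide +kernel
lemma chkJ_24 : chkJ 24 = true := by decide +kernel
lemma chkJ_25 : chkJ 25 = true := by decide +kernel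
lemma chkJ_26 : chkJ 26 = true := by decide +kernel
lemma chkJ_27 : chkJ 27 = true := by decide +kernel
lemma chkJ_28 : chkJ 28 = true := by decide +kernel
lemma chkJ_29 : chkJ 29 = true := by decide +kernel

theorem key_small {j : ℕ} (h1 : 1 ≤ j) (h2 : j ≤ 29) : Key j := by
  apply chkJ_spec h1 h2
  interval_cases j
  · exact chkJ_1
  · exact chkJ_2
  · exact chkJ_3
  · exact chkJ_4
  · exact chkJ_5
  · exact chkJ_6
  · exact chkJ_7
  · exact chkJ_8
  · exact chkJ_9
  · exact chkJ_10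
  · exact chkJ_11
  · exact chkJ_12
  · exact chkJ_13
  · exact chkJ_14
  · exact chkJ_15
  · exact chkJ_16
  · exact chkJ_17
  · exact chkJ_18
  · exact chkJ_19
  · exact chkJ_20
  · exact chkJ_21
  · exact chkJ_22
  · exact chkJ_23
  · exact chkJ_24
  · exact chkJ_25
  · exact chkJ_26
  · exact chkJ_27
  · exact chkJ_28
  · exact chkJ_29

end Pool.Agent.Helper890
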