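import Mathlib
import Pool.Agent.Helper890.ChiData

namespace Pool.Agent.Helper890

open Finset

theorem key_all {j : ℕ} (h1 : 1 ≤ j) : Key j := by
  rcases Nat.lt_or_ge j 30 with h | h
  · exact key_small h1 (by omega)
  · exact key_large h

/-- running maximum of the thresholds -/
noncomputable def V : ℕ → ℕ → ℝ
  | 0, i => (i : ℝ)
  | j + 1, i => max (V j i) (W (j + 1) i)

lemma V_mono {j k : ℕ} (h : j ≤ k) (i : ℕ) : V j i ≤ V k i := by
  induction k, h using Nat.le_induction with
  | base => exact le_rfl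
  | succ n hn ih => exact ih.trans (le_max_left _ _)

lemma W_le_V (j i : ℕ) : W j i ≤ V j i := by
  cases j with
  | zero => unfold W V; simp
  | succ j => exact le_max_right _ _

/-- finite check that the thresholds reach `chi i` -/
def chkF (p : ℕ) : Bool :=
  Nat.ble ((16 * (p + 1) - c16 p) * ((p + 2) * T (p + 1) - (p + 1) * T p)) (16 * (p + 1) * T p) &&
  Nat.ble ((p + 1) * T p) ((p + 2) * T (p + 1)) && Nat.ble (c16 p) (16 * (p + 1))

def chkFAll : ℕ → Bool
  | 0 => true
  | n + 1 => chkF (n + 1) && chkFAll n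

lemma chkFAll_spec : ∀ n, chkFAll n = true → ∀ i, 1 ≤ i → i < n + 1 → chkF i = true := by
  intro n
  induction n with
  | zero => intro _ i h1 h2; omega
  | succ n ih =>
    intro h i h1 h2
    rw [chkFAll, Bool.and_eq_true] at h
    rcases Nat.lt_or_ge i (n + 1) with h3 | h3
    · exact ih h.2 i h1 h3
    · have : i = n + 1 := by omega
      rw [this]; exact h.1

lemma chkFAll_29 : chkFAll 29 = true := by decide +kernel

lemma W_par {i : ℕ} (hi : 3 ≤ i) : (chi i : ℝ) ≤ W (par i) i := by
  obtain ⟨h1, h2, h3, h4, h5, h6⟩ := par_spec hi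
  have h3' : (chi i : ℝ) = ((par i : ℝ) + 1) * ((i : ℝ) - chi (par i)) := by exact_mod_cast h3
  rcases Nat.lt_or_ge (par i) 30 with h | h
  · have hc := chkFAll_spec 29 chkFAll_29 (par i) h1 (by omega)
    unfold chkF at hc
    simp only [Bool.and_eq_true, Nat.ble_eq] at hc
    obtain ⟨⟨c1, c2⟩, c3⟩ := hc
    rw [W_small h1 (by omega)]
    rw [chi_T h1 (by omega)] at h3'
    set p := par i with hp
    unfold bp at h5
    rw [chi_tab p h1 (by omega), chi_tab (p + 1) (by omega) (by omega)] at h5
    have h5' : (i : ℝ) ≤ ((p : ℝ) + 2) * (T (p + 1) : ℝ) - ((p : ℝ) + 1) * (T p : ℝ) := by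
      exact_mod_cast h5
    have r1 : (((16 * (p + 1) - c16 p) * ((p + 2) * T (p + 1) - (p + 1) * T p) : ℕ) : ℝ) ≤
        ((16 * (p + 1) * T p : ℕ) : ℝ) := by exact_mod_cast c1
    push_cast [Nat.cast_sub c2, Nat.cast_sub c3] at r1
    have c3' : (c16 p : ℝ) ≤ 16 * ((p : ℝ) + 1) := by exact_mod_cast c3
    have r2 : (16 * ((p : ℝ) + 1) - c16 p) * (i : ℝ) ≤
        (16 * ((p : ℝ) + 1) - c16 p) * (((p : ℝ) + 2) * (T (p + 1) : ℝ) - ((p : ℝ) + 1) * (T p : ℝ)) :=
      mul_le_mul_of_nonneg_left h5' (by linarith)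
    apply le_min
    · rw [h3']
      linarith
    · rw [h3']
  · rw [h3']
    unfold W
    rw [if_neg (by omega), if_neg (by omega), if_pos le_rfl]

lemma V_ge_chi {i n : ℕ} (h1 : 1 ≤ i) (h2 : i ≤ n) : (chi i : ℝ) ≤ V n i := by
  rcases Nat.lt_or_ge i 3 with h | h
  · rcases Nat.lt_or_ge i 2 with h' | h'
    · have : i = 1 := by omega
      subst this
      rw [chi_one]
      refine le_trans ?_ (V_mono (Nat.zero_le n) 1)
      unfold V; norm_num
    · have : i = 2 := by omega
      subst this
      rw [chi_two]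
      refine le_trans ?_ ((W_le_V 1 2).trans (V_mono (by omega) 2))
      rw [W_small (by norm_num) (by norm_num), T_one]
      have : c16 1 = 31 := by decide
      rw [this]
      norm_num
  · have h3 := par_spec h
    exact (W_par h).trans ((W_le_V _ _).trans (V_mono (by omega) i))

section mono

variable {n : ℕ} {a : ℕ → ℤ}

lemma a_ge_self {i : ℕ} (hi : 1 ≤ i) (h : ((i : ℤ) + 1) * i ≤ a i + ((i : ℤ) + 1) * a i) :
    (i : ℤ) ≤ a i := by
  by_contra hcon
  have h1 : a i ≤ (i : ℤ) - 1 := by omega
  have h2 : (1 : ℤ) ≤ i := by exact_mod_cast hi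
  nlinarith

theorem finite_mono (hchi : ∀ i j : ℕ, 1 ≤ i → i ≤ n → 1 ≤ j → j ≤ n →
      ((j : ℤ) + 1) * i ≤ a i + ((j : ℤ) + 1) * a j)
    (hmono : ∀ i j : ℕ, 1 ≤ i → i ≤ j → j ≤ n → a i ≤ a j) :
    ∑ i ∈ Icc 1 n, 1 / (a i : ℝ) ≤ ∑ i ∈ Icc 1 n, 1 / (chi i : ℝ) := by
  have hself : ∀ i, 1 ≤ i → i ≤ n → (i : ℝ) ≤ a i := by
    intro i h1 h2
    exact_mod_cast a_ge_self h1 (hchi i i h1 h2 h1 h2)
  have hpos : ∀ i, 1 ≤ i → i ≤ n → (0 : ℝ) < a i := by
    intro i h1 h2
    have := hself i h1 h2
    have : (1 : ℝ) ≤ i := by exact_mod_cast h1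
    linarith
  set g : ℕ → ℕ → ℝ := fun j i => 1 / max (a i : ℝ) (V j i) with hg
  -- step A
  have hA : ∀ i ∈ Icc 1 n, 1 / (a i : ℝ) - 1 / max (a i : ℝ) (chi i) ≤
      ∑ j ∈ range n, (g j i - g (j + 1) i) := by
    intro i hi
    rw [mem_Icc] at hi
    rw [Finset.sum_range_sub']
    have h0 : g 0 i = 1 / (a i : ℝ) := by
      simp only [hg, V]
      rw [max_eq_left (hself i hi.1 hi.2)]
    have hn : g n i ≤ 1 / max (a i : ℝ) (chi i) := by
      simp only [hg]
      apply one_div_le_one_div_of_le
      · exact lt_of_lt_of_le (hpos i hi.1 hi.2) (le_max_left _ _)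
      · exact max_le_max le_rfl (V_ge_chi hi.1 hi.2)
    rw [h0]; linarith
  -- step B
  have hB : ∀ j ∈ range n, ∑ i ∈ Icc 1 n, (g j i - g (j + 1) i) ≤
      1 / (chi (j + 1) : ℝ) - 1 / max (a (j + 1) : ℝ) (chi (j + 1)) := by
    intro j hj
    rw [mem_range] at hj
    -- dichotomy for each i
    have hdich : ∀ i ∈ Icc 1 n, V (j + 1) i ≤ max (a i : ℝ) (V j i) ∨
        (V (j + 1) i = W (j + 1) i ∧ max (a i : ℝ) (V j i) < W (j + 1) i) := by
      intro i _
      rcases le_or_gt (W (j + 1) i) (max (a i : ℝ) (V j i)) with h | h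
      · left
        simp only [V]
        exact max_le (le_max_right _ _) h
      · right
        refine ⟨?_, h⟩
        simp only [V]
        exact max_eq_right ((le_max_right _ _).trans h.le)
    have hzero : ∀ i ∈ Icc 1 n, V (j + 1) i ≤ max (a i : ℝ) (V j i) → g j i - g (j + 1) i = 0 := by
      intro i _ h
      simp only [hg]
      have : max (a i : ℝ) (V (j + 1) i) = max (a i : ℝ) (V j i) := by
        apply le_antisymm
        · exact max_le (le_max_left _ _) h
        · exact max_le_max le_rfl (V_mono (Nat.le_succ j) i)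
      rw [this]; ring
    rcases le_or_gt (a (j + 1)) (chi (j + 1)) with hle | hgt
    · have : ∑ i ∈ Icc 1 n, (g j i - g (j + 1) i) = 0 := by
        apply Finset.sum_eq_zero
        intro i hi
        rcases hdich i hi with h | ⟨h1, h2⟩
        · exact hzero i hi h
        · exfalso
          rw [mem_Icc] at hi
          have hai := hpos i hi.1 hi.2
          have hW0 : 0 < W (j + 1) i := by
            have := le_max_left (a i : ℝ) (V j i); linarith
          have he := W_le_line (j := j + 1) (by omega) hW0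
          have hc := hchi i (j + 1) hi.1 hi.2 (by omega) (by omega)
          have hc' : (((j + 1 : ℕ) : ℝ) + 1) * i ≤ a i + (((j + 1 : ℕ) : ℝ) + 1) * a (j + 1) := by
            exact_mod_cast hc
          have hle' : (a (j + 1) : ℝ) ≤ chi (j + 1) := by exact_mod_cast hle
          have hle2 : (((j + 1 : ℕ) : ℝ) + 1) * (a (j + 1) : ℝ) ≤ (((j + 1 : ℕ) : ℝ) + 1) * chi (j + 1) :=
            mul_le_mul_of_nonneg_left hle' (by positivity)
          have := le_max_left (a i : ℝ) (V j i)
          linarith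
      rw [this]
      have hle' : (a (j + 1) : ℝ) ≤ chi (j + 1) := by exact_mod_cast hle
      rw [max_eq_right hle']
      linarith
    · have hkey := key_all (j := j + 1) (by omega) (a (j + 1)) n hgt
      have hgt' : (chi (j + 1) : ℝ) < a (j + 1) := by exact_mod_cast hgt
      rw [max_eq_left hgt'.le]
      refine le_trans ?_ hkey
      apply Finset.sum_le_sum
      intro i hi
      have hF0 : 0 ≤ F (j + 1) (a (j + 1) : ℝ) i := by
        unfold F
        split_ifs with h
        · have h1 := lo_ge_alpha (j + 1) (a (j + 1) : ℝ) i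
          have h2 := hpos (j + 1) (by omega) (by omega)
          rw [sub_nonneg]
          apply one_div_le_one_div_of_le <;> linarith
        · exact le_rfl
      rcases hdich i hi with h | ⟨h1, h2⟩
      · rw [hzero i hi h]; exact hF0
      · rw [mem_Icc] at hi
        have hai := hpos i hi.1 hi.2
        have hmax := le_max_left (a i : ℝ) (V j i)
        have hW0 : 0 < W (j + 1) i := by linarith
        have he := W_le_line (j := j + 1) (by omega) hW0
        have hij : j + 1 ≤ i := by
          have h3 : 0 < (((j + 1 : ℕ) : ℝ) + 1) * ((i : ℝ) - chi (j + 1)) := by linarith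
          have h4 := (mul_pos_iff_of_pos_left (by positivity)).mp h3
          have h5 : ((j + 1 : ℕ) : ℝ) ≤ chi (j + 1) := by
            exact_mod_cast chi_ge_self (i := j + 1) (by omega)
          have h6 : ((j + 1 : ℕ) : ℝ) < i := by linarith
          have : j + 1 < i := by exact_mod_cast h6
          omega
        have hm : (a (j + 1) : ℝ) ≤ a i := by exact_mod_cast hmono (j + 1) i (by omega) hij hi.2
        have hc := hchi i (j + 1) hi.1 hi.2 (by omega) (by omega)
        have hc' : (((j + 1 : ℕ) : ℝ) + 1) * i ≤ a i + (((j + 1 : ℕ) : ℝ) + 1) * a (j + 1) := by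
          exact_mod_cast hc
        have hlo : lo (j + 1) (a (j + 1) : ℝ) i ≤ max (a i : ℝ) (V j i) := by
          unfold lo
          apply max_le
          · apply max_le
            · exact hm.trans hmax
            · refine le_trans ?_ hmax
              linarith
          · apply max_le
            · exact (hself i hi.1 hi.2).trans hmax
            · rw [Nat.add_sub_cancel]
              exact (W_le_V j i).trans (le_max_right _ _)
        have hlo0 : 0 < lo (j + 1) (a (j + 1) : ℝ) i :=
          lt_of_lt_of_le (hpos (j + 1) (by omega) (by omega)) (lo_ge_alpha _ _ _)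
        have hFe : F (j + 1) (a (j + 1) : ℝ) i = 1 / lo (j + 1) (a (j + 1) : ℝ) i - 1 / W (j + 1) i := by
          unfold F
          rw [if_pos (lt_of_le_of_lt hlo h2)]
        rw [hFe]
        simp only [hg]
        rw [h1, max_eq_right (hmax.trans h2.le)]
        have := one_div_le_one_div_of_le hlo0 hlo
        linarith
  -- combine
  have hsum1 := Finset.sum_le_sum hA
  have hsum2 := Finset.sum_le_sum hB
  rw [Finset.sum_comm] at hsum1
  have hsum3 := hsum1.trans hsum2
  have hre : ∑ j ∈ range n, (1 / (chi (j + 1) : ℝ) - 1 / max (a (j + 1) : ℝ) (chi (j + 1))) =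
      ∑ i ∈ Icc 1 n, (1 / (chi i : ℝ) - 1 / max (a i : ℝ) (chi i)) := by
    rw [Finset.range_eq_Ico, Finset.sum_Ico_add' (fun i : ℕ => (1 / (chi i : ℝ) - 1 / max (a i : ℝ) (chi i))) 0 n 1]
    rfl
  rw [hre, Finset.sum_sub_distrib, Finset.sum_sub_distrib] at hsum3
  linarith

end mono

end Pool.Agent.Helper890
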