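import Mathlib
import Pool.Agent.Helper890.ChiMain

namespace Pool.Agent.Helper890

open Finset

lemma exists_large_image {n : ℕ} (σ : Equiv.Perm (Fin n)) (k : Fin n) :
    ∃ l : Fin n, l ≤ k ∧ k ≤ σ l := by
  by_contra hcon
  push Not at hcon
  -- σ maps Iic k into Iio k
  have h : (Finset.Iic k).map σ.toEmbedding ⊆ Finset.Iio k := by
    intro x hx
    rw [Finset.mem_map] at hx
    obtain ⟨y, hy, rfl⟩ := hx
    exact Finset.mem_Iio.mpr (hcon y (Finset.mem_Iic.mp hy))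
  have hc := Finset.card_le_card h
  rw [Finset.card_map, Fin.card_Iic, Fin.card_Iio] at hc
  omega

/-- finite version without monotonicity -/
theorem finite_all {n : ℕ} {a : ℕ → ℤ} (hchi : ∀ i j : ℕ, 1 ≤ i → i ≤ n → 1 ≤ j → j ≤ n →
      ((j : ℤ) + 1) * i ≤ a i + ((j : ℤ) + 1) * a j) :
    ∑ i ∈ Icc 1 n, 1 / (a i : ℝ) ≤ ∑ i ∈ Icc 1 n, 1 / (chi i : ℝ) := by
  set f : Fin n → ℤ := fun k => a (k.1 + 1) with hf
  set σ := Tuple.sort f with hσ
  have hmono : Monotone (f ∘ σ) := Tuple.monotone_sort f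
  set b : ℕ → ℤ := fun i => if h : i - 1 < n then f (σ ⟨i - 1, h⟩) else 0 with hb
  have hbval : ∀ i (h1 : 1 ≤ i) (h2 : i ≤ n), b i = f (σ ⟨i - 1, by omega⟩) := by
    intro i h1 h2
    simp only [hb]
    rw [dif_pos (by omega)]
  have hbig : ∀ i, 1 ≤ i → i ≤ n → ∃ i', i ≤ i' ∧ i' ≤ n ∧ a i' ≤ b i := by
    intro i h1 h2
    obtain ⟨l, hl1, hl2⟩ := exists_large_image σ ⟨i - 1, by omega⟩
    refine ⟨(σ l).1 + 1, ?_, ?_, ?_⟩
    · have : i - 1 ≤ (σ l).1 := hl2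
      omega
    · have := (σ l).2; omega
    · rw [hbval i h1 h2]
      exact hmono hl1
  have hself : ∀ i, 1 ≤ i → i ≤ n → (i : ℤ) ≤ a i := fun i h1 h2 =>
    a_ge_self h1 (hchi i i h1 h2 h1 h2)
  have hchib : ∀ i j : ℕ, 1 ≤ i → i ≤ n → 1 ≤ j → j ≤ n →
      ((j : ℤ) + 1) * i ≤ b i + ((j : ℤ) + 1) * b j := by
    intro i j hi1 hi2 hj1 hj2
    obtain ⟨i', a1, a2, a3⟩ := hbig i hi1 hi2
    obtain ⟨j', b1, b2, b3⟩ := hbig j hj1 hj2
    have h := hchi i' j' (by omega) a2 (by omega) b2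
    have hi0 := hself i' (by omega) a2
    have hj0 := hself j' (by omega) b2
    have ci : (i : ℤ) ≤ i' := by exact_mod_cast a1
    have cj : (j : ℤ) ≤ j' := by exact_mod_cast b1
    have cj1 : (1 : ℤ) ≤ j := by exact_mod_cast hj1
    have ci1 : (1 : ℤ) ≤ i := by exact_mod_cast hi1
    rcases le_or_gt (i : ℤ) (b j) with hle | hgt
    · have : ((j : ℤ) + 1) * i ≤ ((j : ℤ) + 1) * b j := mul_le_mul_of_nonneg_left hle (by linarith)
      linarith
    · have h1 : ((j' : ℤ) + 1) * i' ≤ b i + ((j' : ℤ) + 1) * b j := by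
        have : ((j' : ℤ) + 1) * a j' ≤ ((j' : ℤ) + 1) * b j := mul_le_mul_of_nonneg_left b3 (by linarith)
        linarith
      have h2 : ((j' : ℤ) + 1) * ((i' : ℤ) - b j) ≤ b i := by linarith
      have h3 : ((j : ℤ) + 1) * ((i : ℤ) - b j) ≤ ((j' : ℤ) + 1) * ((i' : ℤ) - b j) := by
        apply mul_le_mul <;> linarith
      linarith
  have hmonob : ∀ i j : ℕ, 1 ≤ i → i ≤ j → j ≤ n → b i ≤ b j := by
    intro i j h1 h2 h3
    rw [hbval i h1 (by omega), hbval j (by omega) h3]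
    apply hmono
    exact Fin.mk_le_mk.mpr (by omega)
  have hmain := finite_mono hchib hmonob
  have hsum : ∑ i ∈ Icc 1 n, 1 / (a i : ℝ) = ∑ i ∈ Icc 1 n, 1 / (b i : ℝ) := by
    have key : ∀ c : ℕ → ℤ, ∑ i ∈ Icc 1 n, 1 / (c i : ℝ) = ∑ k : Fin n, 1 / (c (k.1 + 1) : ℝ) := by
      intro c
      rw [Fin.sum_univ_eq_sum_range (fun k => 1 / (c (k + 1) : ℝ)) n]
      rw [Finset.range_eq_Ico, Finset.sum_Ico_add' (fun i : ℕ => 1 / (c i : ℝ)) 0 n 1]
      rfl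
    rw [key a, key b]
    rw [← Equiv.sum_comp σ (fun k : Fin n => 1 / (a (k.1 + 1) : ℝ))]
    apply Finset.sum_congr rfl
    intro k _
    have : b (k.1 + 1) = f (σ k) := by
      rw [hbval (k.1 + 1) (by omega) (by have := k.2; omega)]
      congr 2
    rw [this]
  rw [hsum]
  exact hmain

lemma summable_chi : Summable (fun k : ℕ => 1 / (chi (k + 1) : ℝ)) := by
  -- compare with (k+2)^(-3/2)
  have hs : Summable (fun k : ℕ => 1 / ((k : ℝ) ^ (3 / 2 : ℝ))) :=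
    Real.summable_one_div_nat_rpow.mpr (by norm_num)
  have hs2 : Summable (fun k : ℕ => 2 * (1 / (((k + 31 : ℕ) : ℝ) ^ (3 / 2 : ℝ)))) :=
    ((summable_nat_add_iff 31).mpr hs).mul_left 2
  rw [← summable_nat_add_iff 29]
  refine Summable.of_nonneg_of_le (fun k => ?_) (fun k => ?_) hs2
  · have := chi_posR (i := k + 29 + 1) (by omega)
    positivity
  · have hG := growth (p := 30) (q := k + 30) le_rfl (by omega)
    have h30 : (chi 30 : ℝ) = 126 := by rw [chi_30]; norm_num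
    rw [h30] at hG
    rw [show k + 29 + 1 = k + 30 by omega]
    have hc := chi_posR (i := k + 30) (by omega)
    have h1 : (((k + 31 : ℕ) : ℝ) ^ (3 / 2 : ℝ)) ^ 2 = ((k + 31 : ℕ) : ℝ) ^ 3 := by
      rw [← Real.rpow_natCast, ← Real.rpow_mul (by positivity)]
      norm_num
    have h2 : (((k + 31 : ℕ) : ℝ) ^ (3 / 2 : ℝ)) ≤ 2 * (chi (k + 30) : ℝ) := by
      apply le_of_sq_le_sq _ (by positivity)
      rw [h1]
      push_cast at hG ⊢
      have e : (k : ℝ) + 30 + 1 = (k : ℝ) + 31 := by ring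
      rw [e] at hG
      norm_num at hG
      nlinarith
    have hp : (0 : ℝ) < (((k + 31 : ℕ) : ℝ) ^ (3 / 2 : ℝ)) := by positivity
    have h3 : (1 : ℝ) / (chi (k + 30) : ℝ) ≤ 2 * (1 / (((k + 31 : ℕ) : ℝ) ^ (3 / 2 : ℝ))) := by
      rw [mul_one_div, div_le_div_iff₀ hc hp]
      linarith
    exact h3

theorem main_infinite (a : ℕ → ℤ) (hchi : ∀ i j : ℕ, 1 ≤ i → 1 ≤ j →
      ((j : ℤ) + 1) * i ≤ a i + ((j : ℤ) + 1) * a j) :
    Summable (fun k : ℕ => 1 / (a (k + 1) : ℝ)) ∧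
    ∑' k : ℕ, 1 / (a (k + 1) : ℝ) ≤ ∑' k : ℕ, 1 / (chi (k + 1) : ℝ) := by
  have hself : ∀ i : ℕ, 1 ≤ i → (i : ℤ) ≤ a i := fun i h1 => a_ge_self h1 (hchi i i h1 h1)
  have hnn : ∀ k : ℕ, 0 ≤ 1 / (a (k + 1) : ℝ) := by
    intro k
    have h1 := hself (k + 1) (by omega)
    have h2 : ((k + 1 : ℕ) : ℝ) ≤ a (k + 1) := by exact_mod_cast h1
    have h3 : (0 : ℝ) ≤ ((k + 1 : ℕ) : ℝ) := by positivity
    have : (0 : ℝ) ≤ a (k + 1) := by linarith
    positivity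
  have hnnc : ∀ k : ℕ, 0 ≤ 1 / (chi (k + 1) : ℝ) := by
    intro k
    have := chi_posR (i := k + 1) (by omega)
    positivity
  have hbd : ∀ n : ℕ, ∑ k ∈ range n, 1 / (a (k + 1) : ℝ) ≤ ∑' k : ℕ, 1 / (chi (k + 1) : ℝ) := by
    intro n
    have h := finite_all (n := n) (a := a) (fun i j hi _ hj _ => hchi i j hi hj)
    have key : ∀ c : ℕ → ℤ, ∑ i ∈ Icc 1 n, 1 / (c i : ℝ) = ∑ k ∈ range n, 1 / (c (k + 1) : ℝ) := by
      intro c
      rw [Finset.range_eq_Ico, Finset.sum_Ico_add' (fun i : ℕ => 1 / (c i : ℝ)) 0 n 1]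
      rfl
    rw [key a, key chi] at h
    exact h.trans (summable_chi.sum_le_tsum _ (fun k _ => hnnc k))
  exact ⟨summable_of_sum_range_le hnn hbd, Real.tsum_le_of_sum_range_le hnn hbd⟩

end Pool.Agent.Helper890
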