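import Mathlib

open MeasureTheory Set Filter Topology Metric
open scoped RealInnerProductSpace Pointwise

namespace Pool.Agent.Helper890.Cov2

/-- the boundary is a `C^2` hypersurface with positive principal curvatures -/
def BdryC2P {n : ℕ} (K : Set (EuclideanSpace ℝ (Fin n))) : Prop := ∀ p ∈ frontier K,
  ∃ ρ : EuclideanSpace ℝ (Fin n) → ℝ,
  ContDiffAt ℝ 2 ρ p ∧ fderiv ℝ ρ p ≠ 0 ∧ (∀ᶠ x in 𝓝 p, x ∈ K ↔ ρ x ≤ 0) ∧
  ∀ w, w ≠ 0 → fderiv ℝ ρ p w = 0 → 0 < fderiv ℝ (fderiv ℝ ρ) p w w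

/-- if `K = L + M` with `L`, `M` convex bodies in complementary subspaces then `L` or `M` is a point -/
def DirectlyIndecomposable {n : ℕ} (K : Set (EuclideanSpace ℝ (Fin n))) : Prop :=
  ∀ (U W : Submodule ℝ (EuclideanSpace ℝ (Fin n))), IsCompl U W →
    ∀ (L M : Set (EuclideanSpace ℝ (Fin n))), IsCompact L → Convex ℝ L → IsCompact M → Convex ℝ M →
      L ⊆ (U : Set (EuclideanSpace ℝ (Fin n))) → M ⊆ (W : Set (EuclideanSpace ℝ (Fin n))) →
      K = L + M → L.Subsingleton ∨ M.Subsingleton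

theorem directlyIndecomposable_of_c2p {n : ℕ} (K : Set (EuclideanSpace ℝ (Fin n)))
    (hc : IsCompact K) (hconv : Convex ℝ K) (hi : (interior K).Nonempty) (h2 : BdryC2P K) :
    DirectlyIndecomposable K := by
  intro U W hUW L M hLc hLconv hMc hMconv hLU hMW hK
  by_contra hcon
  rw [not_or, Set.not_subsingleton_iff, Set.not_subsingleton_iff] at hcon
  obtain ⟨⟨l1, hl1, l2, hl2, hl⟩, ⟨m1, hm1, m2, hm2, hm⟩⟩ := hcon
  have hv : l1 - l2 ∉ W := by
    intro h
    have hU : l1 - l2 ∈ U := U.sub_mem (hLU hl1) (hLU hl2)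
    have := (Submodule.disjoint_def.mp hUW.disjoint) _ hU h
    exact hl (sub_eq_zero.mp this)
  obtain ⟨u, huW, hu⟩ : ∃ u ∈ Wᗮ, u ≠ 0 := by
    by_contra hno
    push Not at hno
    have h1 : Wᗮ = ⊥ := by rw [Submodule.eq_bot_iff]; exact hno
    have h2 : W = ⊤ := (Submodule.orthogonal_eq_bot_iff).mp h1
    exact hv (h2 ▸ Submodule.mem_top)
  have hφW : ∀ x ∈ W, ⟪u, x⟫ = 0 := fun x hx =>
    Submodule.inner_left_of_mem_orthogonal hx huW
  obtain ⟨l, hlL, hlmax⟩ := hLc.exists_isMaxOn ⟨l1, hl1⟩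
    (f := fun x => ⟪u, x⟫) (by fun_prop)
  have hle : ∀ x ∈ K, ⟪u, x⟫ ≤ ⟪u, l⟫ := by
    intro x hx
    rw [hK] at hx
    obtain ⟨a, ha, b, hb, rfl⟩ := Set.mem_add.mp hx
    rw [inner_add_right, hφW b (hMW hb), add_zero]
    exact hlmax ha
  set w := m2 - m1 with hw
  have hw0 : w ≠ 0 := sub_ne_zero.mpr (Ne.symm hm)
  set p := l + ((1 / 2 : ℝ) • m1 + (1 / 2 : ℝ) • m2) with hp
  have hseg : ∀ t : ℝ, |t| ≤ 1 / 2 → p + t • w ∈ K := by
    intro t ht
    rw [abs_le] at ht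
    rw [hK]
    refine Set.mem_add.mpr ⟨l, hlL, (1 / 2 - t) • m1 + (1 / 2 + t) • m2,
      hMconv hm1 hm2 (by linarith) (by linarith) (by ring), ?_⟩
    rw [hp, hw]
    module
  have hpK : p ∈ K := by
    have := hseg 0 (by norm_num)
    rwa [zero_smul, add_zero] at this
  have hφp : ⟪u, p⟫ = ⟪u, l⟫ := by
    rw [hp, inner_add_right, inner_add_right, inner_smul_right, inner_smul_right,
      hφW m1 (hMW hm1), hφW m2 (hMW hm2)]
    ring
  have hpint : p ∉ interior K := by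
    intro hpi
    have h1 : Tendsto (fun t : ℝ => p + t • u) (𝓝 0) (𝓝 p) := by
      have : Continuous (fun t : ℝ => p + t • u) := by fun_prop
      have h := this.tendsto 0
      simpa using h
    have h3 : ∀ᶠ t : ℝ in 𝓝 0, p + t • u ∈ K := h1 (mem_interior_iff_mem_nhds.mp hpi)
    have h4 : ∀ᶠ t : ℝ in 𝓝[>] 0, p + t • u ∈ K := h3.filter_mono nhdsWithin_le_nhds
    obtain ⟨t, ht1, ht2⟩ := (h4.and self_mem_nhdsWithin).exists
    have h5 := hle _ ht1
    rw [inner_add_right, inner_smul_right, hφp, real_inner_self_eq_norm_sq] at h5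
    have h6 : 0 < ‖u‖ ^ 2 := by positivity
    have h7 : 0 < t := ht2
    nlinarith [mul_pos h7 h6]
  have hpf : p ∈ frontier K := ⟨subset_closure hpK, hpint⟩
  obtain ⟨ρ, hρ, hne, hev, hpos⟩ := h2 p hpf
  have hρp : ρ p = 0 := by
    have h1 : ρ p ≤ 0 := hev.self_of_nhds.mp hpK
    rcases h1.lt_or_eq with h | h
    · exfalso
      apply hpint
      rw [mem_interior_iff_mem_nhds]
      have h3 : ∀ᶠ x in 𝓝 p, ρ x < 0 := hρ.continuousAt.eventually (gt_mem_nhds h)
      filter_upwards [h3, hev] with x hx1 hx2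
      exact hx2.mpr hx1.le
    · exact h
  -- the function g
  have hlin : ∀ t : ℝ, HasDerivAt (fun t : ℝ => p + t • w) w t := by
    intro t
    have h := ((hasDerivAt_id t).smul_const w).const_add p
    simpa using h
  have htend : Tendsto (fun t : ℝ => p + t • w) (𝓝 0) (𝓝 p) := by
    have h := (hlin 0).continuousAt.tendsto
    simpa using h
  have hmax : IsLocalMax (fun t : ℝ => ρ (p + t • w)) 0 := by
    have h1 : ∀ᶠ t : ℝ in 𝓝 0, |t| ≤ 1 / 2 := by
      have : Tendsto (fun t : ℝ => |t|) (𝓝 0) (𝓝 |0|) := continuous_abs.tendsto 0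
      rw [abs_zero] at this
      exact this.eventually (ge_mem_nhds (by norm_num))
    filter_upwards [h1, htend.eventually hev] with t ht1 ht2
    simp only [zero_smul, add_zero, hρp]
    exact ht2.mp (hseg t ht1)
  have hdiff : ∀ᶠ x in 𝓝 p, DifferentiableAt ℝ ρ x := by
    have h := hρ.eventually (by simp)
    filter_upwards [h] with x hx
    exact hx.differentiableAt (by simp)
  have hg : ∀ᶠ t : ℝ in 𝓝 0, HasDerivAt (fun t : ℝ => ρ (p + t • w)) (fderiv ℝ ρ (p + t • w) w) t := by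
    filter_upwards [htend.eventually hdiff] with t ht
    exact ht.hasFDerivAt.comp_hasDerivAt t (hlin t)
  have hderiv : deriv (fun t : ℝ => ρ (p + t • w)) =ᶠ[𝓝 0] fun t => fderiv ℝ ρ (p + t • w) w := by
    filter_upwards [hg] with t ht
    exact ht.deriv
  have hg0 : fderiv ℝ ρ p w = 0 := by
    have h := hg.self_of_nhds
    have h1 := hmax.hasDerivAt_eq_zero h
    simpa using h1
  have hG : HasDerivAt (fun t : ℝ => fderiv ℝ ρ (p + t • w) w) (fderiv ℝ (fderiv ℝ ρ) p w w) 0 := by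
    have h1 : DifferentiableAt ℝ (fderiv ℝ ρ) p := by
      have h := hρ.fderiv_right (m := 1) (by norm_num)
      exact h.differentiableAt (by simp)
    have h2 : HasFDerivAt (fderiv ℝ ρ) (fderiv ℝ (fderiv ℝ ρ) p) (p + (0 : ℝ) • w) := by
      rw [zero_smul, add_zero]; exact h1.hasFDerivAt
    have h3 := h2.comp_hasDerivAt (0 : ℝ) (hlin 0)
    have h4 := h3.clm_apply (hasDerivAt_const (0 : ℝ) w)
    simpa using h4
  have hpos2 := hpos w hw0 hg0
  have hmin : IsLocalMin (fun t : ℝ => ρ (p + t • w)) 0 := by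
    apply isLocalMin_of_deriv_deriv_pos
    · rw [hderiv.deriv_eq, hG.deriv]; exact hpos2
    · rw [hderiv.self_of_nhds]; simpa using hg0
    · exact hg.self_of_nhds.continuousAt
  have hconst : (fun t : ℝ => ρ (p + t • w)) =ᶠ[𝓝 0] fun _ => ρ (p + (0 : ℝ) • w) := by
    filter_upwards [hmax, hmin] with t h1 h2
    exact le_antisymm h1 h2
  have h5 : deriv (deriv (fun t : ℝ => ρ (p + t • w))) 0 = 0 := by
    have h6 := hconst.deriv
    rw [h6.deriv_eq]
    simp
  rw [hderiv.deriv_eq, hG.deriv] at h5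
  linarith


end Pool.Agent.Helper890.Cov2
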